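import Mathlib

/-! Davis-Putnam-Robinson: Diophantine sets are closed under bounded universal quantifiers. -/

set_option autoImplicit false

namespace Pool.Agent.WUnd

open Dioph

theorem digit_sum {u : ℕ} (N : ℕ) : ∀ (c : ℕ → ℕ) (k : ℕ), (∀ j, c j < u) →
    (∑ j ∈ Finset.range N, c j * u ^ j) / u ^ k % u = if k < N then c k else 0 := by
  induction N with
  | zero => intro c k _; simp
  | succ N ih =>
    intro c k hc
    have hu : 0 < u := lt_of_le_of_lt (Nat.zero_le _) (hc 0)
    have e : ∑ j ∈ Finset.range (N + 1), c j * u ^ j =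
        c 0 + u * ∑ j ∈ Finset.range N, c (j + 1) * u ^ j := by
      rw [Finset.sum_range_succ', Finset.mul_sum, add_comm]
      simp only [pow_zero, mul_one, pow_succ]
      congr 1
      exact Finset.sum_congr rfl fun j _ => by ring
    rw [e]
    cases k with
    | zero => simp [Nat.mod_eq_of_lt (hc 0)]
    | succ k =>
      rw [pow_succ', ← Nat.div_div_eq_div_mul, Nat.add_mul_div_left _ _ hu,
        Nat.div_eq_of_lt (hc 0), zero_add, ih _ k fun j => hc (j + 1)]
      simp

theorem choose_formula (n k : ℕ) :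
    n.choose k = (2 ^ (n + 1) + 1) ^ n / (2 ^ (n + 1)) ^ k % 2 ^ (n + 1) := by
  have h := digit_sum (u := 2 ^ (n + 1)) (n + 1) (fun j => n.choose j) k fun j =>
    lt_of_le_of_lt (Nat.choose_le_two_pow n j) (Nat.pow_lt_pow_right (by norm_num) (by omega))
  rw [add_pow, Finset.sum_congr rfl (g := fun j => n.choose j * (2 ^ (n + 1)) ^ j)
    fun j _ => by simp [mul_comm], h]
  split_ifs with hk
  · rfl
  · exact Nat.choose_eq_zero_of_lt (by omega)

/-- Binomial coefficients are Diophantine. -/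
theorem choose_dioph {α : Type} {f g : (α → ℕ) → ℕ} (df : DiophFn f) (dg : DiophFn g) :
    DiophFn fun v => (f v).choose (g v) := by
  have du := pow_dioph (const_dioph 2) (add_dioph df (const_dioph 1))
  have := mod_dioph (div_dioph (pow_dioph (add_dioph du (const_dioph 1)) df) (pow_dioph du dg)) du
  simp only [choose_formula]
  exact this

theorem add_pow_bound {s : ℕ} (hs : 1 ≤ s) (a n : ℕ) :
    (s + a) ^ n * s + s ^ n ≤ s ^ (n + 1) + s ^ n * (a + 1) ^ n := by
  induction n with
  | zero => simp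
  | succ n ih =>
    obtain ⟨c, hc⟩ : ∃ c, (a + 1) ^ n = c + 1 :=
      Nat.exists_eq_add_one_of_ne_zero (by positivity)
    rw [pow_succ (a + 1), hc]
    rw [hc] at ih
    have h1 : (s + a) ^ n * s ≤ s ^ (n + 1) + s ^ n * c := by nlinarith
    have h2 : s ^ n * (a * c) ≤ s ^ (n + 1) * (a * c) :=
      Nat.mul_le_mul_right _ (Nat.pow_le_pow_right hs (by omega))
    calc (s + a) ^ (n + 1) * s + s ^ (n + 1) = (s + a) * ((s + a) ^ n * s) + s ^ (n + 1) := by ring
      _ ≤ (s + a) * (s ^ (n + 1) + s ^ n * c) + s ^ (n + 1) := by gcongr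
      _ = s ^ (n + 1 + 1) + s ^ (n + 1) * (c + a + 1) + s ^ n * (a * c) := by ring
      _ ≤ s ^ (n + 1 + 1) + s ^ (n + 1) * (c + a + 1) + s ^ (n + 1) * (a * c) := by gcongr
      _ = _ := by ring

theorem factorial_formula (k : ℕ) :
    k.factorial = ((k + 1) ^ (2 * k) + k) ^ k / ((k + 1) ^ (2 * k) + k).choose k := by
  obtain ⟨s, hs⟩ : ∃ s, s = (k + 1) ^ (2 * k) := ⟨_, rfl⟩
  have h0 : 1 ≤ s := hs ▸ Nat.one_le_pow _ _ (by omega)
  have h1 : k.factorial * (k + 1) ^ k ≤ s := by
    rw [hs, two_mul, pow_add]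
    exact Nat.mul_le_mul_right _ ((Nat.factorial_le_pow k).trans (Nat.pow_le_pow_left (by omega) k))
  rw [← hs]
  symm
  apply Nat.div_eq_of_lt_le
  · rw [← Nat.descFactorial_eq_factorial_mul_choose]
    exact Nat.descFactorial_le_pow _ _
  · have h2 : s ^ k ≤ k.factorial * (s + k).choose k := by
      rw [← Nat.descFactorial_eq_factorial_mul_choose]
      exact (Nat.pow_le_pow_left (by omega) k).trans (Nat.pow_sub_le_descFactorial (s + k) k)
    have h3 := add_pow_bound h0 k k
    have h4 : 0 < k.factorial * s ^ k := by positivity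
    have h5 : k.factorial * (s + k) ^ k * s < (k.factorial + 1) * s ^ k * s := by
      calc k.factorial * (s + k) ^ k * s
          < k.factorial * ((s + k) ^ k * s + s ^ k) := by nlinarith
        _ ≤ k.factorial * (s ^ (k + 1) + s ^ k * (k + 1) ^ k) := by gcongr
        _ = k.factorial * s ^ (k + 1) + s ^ k * (k.factorial * (k + 1) ^ k) := by ring
        _ ≤ k.factorial * s ^ (k + 1) + s ^ k * s := by gcongr
        _ = _ := by ring
    have h6 := lt_of_mul_lt_mul_right h5 (Nat.zero_le _)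
    refine lt_of_mul_lt_mul_left (a := k.factorial) (h6.trans_le ?_) (Nat.zero_le _)
    calc (k.factorial + 1) * s ^ k ≤ (k.factorial + 1) * (k.factorial * (s + k).choose k) := by
          gcongr
      _ = _ := by ring

/-- The factorial is Diophantine. -/
theorem factorial_dioph {α : Type} {f : (α → ℕ) → ℕ} (df : DiophFn f) :
    DiophFn fun v => (f v).factorial := by
  have dr := add_dioph (pow_dioph (add_dioph df (const_dioph 1)) (mul_dioph (const_dioph 2) df)) df
  have := div_dioph (pow_dioph dr df) (choose_dioph dr df)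
  simp only [factorial_formula]
  exact this

theorem poly_facts {γ : Type} (p : Poly γ) : ∃ (L : List γ) (e : ℕ),
    (∀ (m : ℕ) (x x' : γ → ℕ), (∀ i ∈ L, x i ≡ x' i [MOD m]) → p x ≡ p x' [ZMOD m]) ∧
      ∀ (x : γ → ℕ) (U : ℕ), (∀ i ∈ L, x i ≤ U) → (p x).natAbs ≤ (U + 2) ^ e := by
  induction p using Poly.induction with
  | H1 i =>
    refine ⟨[i], 1, fun m x x' h => Int.natCast_modEq_iff.2 (h i (by simp)), fun x U h => ?_⟩
    have := h i (by simp)
    simp only [Poly.proj_apply, Int.natAbs_natCast, pow_one]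
    omega
  | H2 n =>
    exact ⟨[], n.natAbs, fun m x x' _ => Int.ModEq.refl _, fun x U _ =>
      (Nat.lt_pow_self (by omega)).le⟩
  | H3 f g hf hg =>
    obtain ⟨L, e, h1, h2⟩ := hf
    obtain ⟨L', e', h1', h2'⟩ := hg
    refine ⟨L ++ L', e + e' + 1, fun m x x' h => (h1 m x x' fun i hi => h i (by simp [hi])).sub
      (h1' m x x' fun i hi => h i (by simp [hi])), fun x U h => ?_⟩
    have a1 := h2 x U fun i hi => h i (by simp [hi])
    have a2 := h2' x U fun i hi => h i (by simp [hi])
    have a3 : (U + 2) ^ e ≤ (U + 2) ^ (e + e') := Nat.pow_le_pow_right (by omega) (by omega)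
    have a4 : (U + 2) ^ e' ≤ (U + 2) ^ (e + e') := Nat.pow_le_pow_right (by omega) (by omega)
    have a5 := Int.natAbs_sub_le (f x) (g x)
    rw [Poly.sub_apply, pow_succ]
    have a6 : (U + 2) ^ (e + e') * 2 ≤ (U + 2) ^ (e + e') * (U + 2) :=
      Nat.mul_le_mul_left _ (by omega)
    omega
  | H4 f g hf hg =>
    obtain ⟨L, e, h1, h2⟩ := hf
    obtain ⟨L', e', h1', h2'⟩ := hg
    refine ⟨L ++ L', e + e', fun m x x' h => (h1 m x x' fun i hi => h i (by simp [hi])).mul
      (h1' m x x' fun i hi => h i (by simp [hi])), fun x U h => ?_⟩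
    rw [Poly.mul_apply, Int.natAbs_mul, pow_add]
    exact Nat.mul_le_mul (h2 x U fun i hi => h i (by simp [hi]))
      (h2' x U fun i hi => h i (by simp [hi]))

/-- The moduli. -/
def bm (B z : ℕ) : ℕ := B.factorial * (B.factorial / (z + 1)) - 1

theorem bm_spec {B z : ℕ} (hz : z < B) :
    ∃ c, 1 ≤ c ∧ bm B z + 1 = B.factorial * c ∧ (z + 1) * bm B z + z = B.factorial ^ 2 - 1 := by
  obtain ⟨c, hc⟩ := Nat.dvd_factorial (Nat.succ_pos z) hz
  have h0 := Nat.factorial_pos B
  have h1 : B.factorial / (z + 1) = c := by rw [hc]; exact Nat.mul_div_cancel_left _ (by omega)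
  have h2 : 1 ≤ c := Nat.pos_of_ne_zero (by rintro rfl; omega)
  have h3 : bm B z + 1 = B.factorial * c := by
    rw [bm, h1]
    exact Nat.sub_add_cancel (Nat.mul_pos h0 h2)
  refine ⟨c, h2, h3, ?_⟩
  have h4 : (z + 1) * (bm B z + 1) = B.factorial ^ 2 := by
    rw [h3, sq]
    nth_rw 3 [hc]
    simp only [Nat.succ_eq_add_one]
    ring
  rw [← h4]
  simp only [mul_add, mul_one]
  omega

theorem bm_prime {B z l : ℕ} (hz : z < B) (hl : l.Prime) (h : l ∣ bm B z) : B < l := by
  obtain ⟨c, -, h1, -⟩ := bm_spec hz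
  by_contra h2
  have h3 : l ∣ bm B z + 1 := h1 ▸ (Nat.dvd_factorial hl.pos (by omega)).mul_right c
  exact hl.one_lt.ne' (Nat.dvd_one.1 ((Nat.dvd_add_right h).1 h3))

theorem bm_mod {B z : ℕ} (hz : z < B) : B.factorial ^ 2 - 1 ≡ z [MOD bm B z] := by
  obtain ⟨c, -, -, h1⟩ := bm_spec hz
  rw [← h1]
  simp [Nat.ModEq]

theorem bm_coprime {B z z' : ℕ} (hz : z < B) (hz' : z' < B) (h : z ≠ z') :
    Nat.Coprime (bm B z) (bm B z') := by
  apply Nat.coprime_of_dvd
  intro l hl h1 h2
  have h3 := bm_prime hz hl h1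
  exact h (Nat.ModEq.eq_of_lt_of_lt
    (((bm_mod hz).of_dvd h1).symm.trans ((bm_mod hz').of_dvd h2)) (by omega) (by omega))

theorem bm_prod {B y : ℕ} (hy : y ≤ B) :
    (B.factorial ^ 2 - 1).choose y = ∏ z ∈ Finset.range y, bm B z := by
  induction y with
  | zero => simp
  | succ y ih =>
    obtain ⟨c, -, -, h1⟩ := bm_spec (show y < B by omega)
    apply Nat.eq_of_mul_eq_mul_right (Nat.succ_pos y)
    rw [Nat.choose_succ_right_eq, ih (by omega), Finset.prod_range_succ, mul_assoc]
    congr 1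
    rw [← h1, Nat.add_sub_cancel, mul_comm]

theorem bm_ne_one {B z : ℕ} (hz : z < B) (hB : 3 ≤ B) : bm B z ≠ 1 := by
  obtain ⟨c, h0, h1, -⟩ := bm_spec hz
  have h2 := Nat.self_le_factorial B
  intro h
  nlinarith

theorem bm_dvd {B y N : ℕ} (hy : y ≤ B) (h : ∀ z < y, bm B z ∣ N) :
    (B.factorial ^ 2 - 1).choose y ∣ N := by
  rw [bm_prod hy]
  refine Finset.prod_dvd_of_isRelPrime (fun z hz z' hz' hne => ?_) fun z hz =>
    h z (Finset.mem_range.1 hz)
  simp only [Finset.coe_range, Set.mem_Iio] at hz hz'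
  exact Nat.coprime_iff_isRelPrime.1 (bm_coprime (B := B) (by omega) (by omega) hne)

theorem dvd_desc {m A t u : ℕ} (h : A ≡ t [MOD m]) (ht : t < u) :
    m ∣ u.factorial * A.choose u := by
  rw [← Nat.descFactorial_eq_factorial_mul_choose, Nat.descFactorial_eq_prod_range]
  exact (Nat.ModEq.dvd' h.symm).trans (Finset.dvd_prod_of_mem _ (Finset.mem_range.2 ht))

theorem of_dvd_desc {l A u : ℕ} (hl : l.Prime) (h : l ∣ u.factorial * A.choose u) :
    ∃ t, t ≤ u ∧ A ≡ t [MOD l] := by
  rw [← Nat.descFactorial_eq_factorial_mul_choose, Nat.descFactorial_eq_prod_range] at h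
  obtain ⟨j, hj, h⟩ := (hl.prime.dvd_finsetProd_iff _).1 h
  rcases le_total j A with h1 | h1
  · exact ⟨j, (Finset.mem_range.1 hj).le, ((Nat.modEq_iff_dvd' h1).2 h).symm⟩
  · exact ⟨A, h1.trans (Finset.mem_range.1 hj).le, rfl⟩

/-- The side condition attached to a variable of the polynomial. -/
def bcond {α β : Type} (v : α → ℕ) (u M : ℕ) (A : β → ℕ) : Option α ⊕ β → Prop
  | .inl none => True
  | .inl (some i) => v i ≤ u
  | .inr b => M ∣ u.factorial * (A b).choose u

theorem ball_key {α β : Type} (p : Poly (Option α ⊕ β)) : ∃ (L : List (Option α ⊕ β)) (e : ℕ),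
    ∀ (v : α → ℕ) (y : ℕ), (∀ z, z < y → ∃ t, p (Sum.elim (Option.elim' z v) t) = 0) ↔
      ∃ (u : ℕ) (A : β → ℕ), y ≤ u ∧
        (∀ j ∈ L, bcond v u ((((u + 2) ^ e + u + 3).factorial ^ 2 - 1).choose y) A j) ∧
        (((u + 2) ^ e + u + 3).factorial ^ 2 - 1).choose y ∣
          (p (Sum.elim (Option.elim' (((u + 2) ^ e + u + 3).factorial ^ 2 - 1) v) A)).natAbs := by
  obtain ⟨L, e, h1, h2⟩ := poly_facts p
  refine ⟨L, e, fun v y => ⟨fun h => ?_, ?_⟩⟩
  · choose! t ht using h
    obtain ⟨u, hu⟩ : ∃ u, y ≤ u ∧ ∀ z < y + 1, ∀ j ∈ L,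
        Sum.elim (Option.elim' z v) (t z) j < u := by
      refine ⟨y + 1 + ∑ z ∈ Finset.range (y + 1),
        (L.map (Sum.elim (Option.elim' z v) (t z))).sum, by omega, fun z hz j hj => ?_⟩
      have a1 := List.single_le_sum (l := L.map (Sum.elim (Option.elim' z v) (t z)))
        (fun _ _ => Nat.zero_le _) _ (List.mem_map_of_mem hj)
      have a2 := Finset.single_le_sum (s := Finset.range (y + 1))
        (f := fun z => (L.map (Sum.elim (Option.elim' z v) (t z))).sum)
        (fun _ _ => Nat.zero_le _) (Finset.mem_range.2 hz)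
      omega
    obtain ⟨B, hB⟩ : ∃ B, B = (u + 2) ^ e + u + 3 := ⟨_, rfl⟩
    have hyB : y ≤ B := by omega
    have crt : ∀ b, ∃ A, ∀ z < y, A ≡ t z b [MOD bm B z] := fun b => by
      obtain ⟨A, hA⟩ := Nat.chineseRemainderOfFinset (fun z => t z b) (bm B) (Finset.range y)
        (fun z hz h0 => by
          have := bm_prime (B := B) (z := z) (by have := Finset.mem_range.1 hz; omega)
            Nat.prime_two (by simp [h0])
          omega)
        (fun z hz z' hz' hne => by
          simp only [Finset.coe_range, Set.mem_Iio] at hz hz'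
          exact bm_coprime (B := B) (by omega) (by omega) hne)
      exact ⟨A, fun z hz => hA z (Finset.mem_range.2 hz)⟩
    choose A hA using crt
    refine ⟨u, A, hu.1, fun j hj => ?_, ?_⟩ <;> rw [← hB]
    · rcases j with (_ | i) | b
      · trivial
      · exact (hu.2 0 (by omega) _ hj).le
      · exact bm_dvd hyB fun z hz => dvd_desc (hA b z hz) (hu.2 z (by omega) _ hj)
    · refine bm_dvd hyB fun z hz => ?_
      have := h1 (bm B z) (Sum.elim (Option.elim' (B.factorial ^ 2 - 1) v) A)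
        (Sum.elim (Option.elim' z v) (t z)) fun j _ => by
          rcases j with (_ | i) | b
          · exact bm_mod (by omega)
          · rfl
          · exact hA b z hz
      rw [ht z hz] at this
      exact Int.natCast_dvd.1 (Int.modEq_zero_iff_dvd.1 this)
  · rintro ⟨u, A, hu, h3, h4⟩ z hz
    obtain ⟨B, hB⟩ : ∃ B, B = (u + 2) ^ e + u + 3 := ⟨_, rfl⟩
    rw [← hB] at h3 h4
    have hzB : z < B := by omega
    obtain ⟨l, hl, hlm⟩ := Nat.exists_prime_and_dvd (bm_ne_one hzB (by omega))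
    have hlM : l ∣ (B.factorial ^ 2 - 1).choose y := by
      rw [bm_prod (by omega)]
      exact hlm.trans (Finset.dvd_prod_of_mem _ (Finset.mem_range.2 hz))
    have ht : ∀ b, ∃ t, A b ≡ t [MOD l] ∧ (Sum.inr b ∈ L → t ≤ u) := fun b => by
      by_cases hb : Sum.inr b ∈ L
      · obtain ⟨t, a1, a2⟩ := of_dvd_desc hl (hlM.trans (h3 _ hb))
        exact ⟨t, a2, fun _ => a1⟩
      · exact ⟨_, rfl, fun h => absurd h hb⟩
    choose t ht using ht
    refine ⟨t, ?_⟩
    have a1 := h1 l (Sum.elim (Option.elim' (B.factorial ^ 2 - 1) v) A)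
      (Sum.elim (Option.elim' z v) t) fun j _ => by
        rcases j with (_ | i) | b
        · exact (bm_mod hzB).of_dvd hlm
        · rfl
        · exact (ht b).1
    have a2 := h2 (Sum.elim (Option.elim' z v) t) u fun j hj => by
      rcases j with (_ | i) | b
      · exact (hz.trans_le hu).le
      · exact h3 _ hj
      · exact (ht b).2 hj
    have a3 : l ∣ (p (Sum.elim (Option.elim' z v) t)).natAbs :=
      Int.natCast_dvd.1 (Int.modEq_zero_iff_dvd.1 (a1.symm.trans
        (Int.modEq_zero_iff_dvd.2 (Int.natCast_dvd.2 (hlM.trans h4)))))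
    have a4 := bm_prime hzB hl hlm
    exact Int.natAbs_eq_zero.1 (Nat.eq_zero_of_dvd_of_lt a3 (by omega))

theorem true_dioph {α : Type} : Dioph {_v : α → ℕ | True} :=
  (eq_dioph (const_dioph 0) (const_dioph 0)).ext (by simp)

theorem forall_mem_dioph {α ι : Type} (l : List ι) {R : ι → (α → ℕ) → Prop}
    (h : ∀ i, Dioph {v | R i v}) : Dioph {v | ∀ i ∈ l, R i v} := by
  induction l with
  | nil => exact true_dioph.ext (by simp)
  | cons i l ih => exact ((h i).inter ih).ext (by simp)

/-- Bounded universal quantifiers preserve Diophantine sets. -/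
theorem ball_dioph {α : Type} {S : Set (Option α → ℕ)} (d : Dioph S) {f : (α → ℕ) → ℕ}
    (df : DiophFn f) : Dioph {v | ∀ z, z < f v → Option.elim' z v ∈ S} := by
  obtain ⟨β, p, hp⟩ := d
  obtain ⟨L, e, h⟩ := ball_key p
  have du : DiophFn fun w : α ⊕ Option β → ℕ => w (Sum.inr none) := proj_dioph _
  have dy : DiophFn fun w : α ⊕ Option β → ℕ => f (w ∘ Sum.inl) := reindex_diophFn _ df
  have dq := sub_dioph (pow_dioph (factorial_dioph (add_dioph (add_dioph
    (pow_dioph (add_dioph du (const_dioph 2)) (const_dioph e)) du) (const_dioph 3)))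
    (const_dioph 2)) (const_dioph 1)
  have dM := choose_dioph dq dy
  have d2 := forall_mem_dioph L (R := fun j (w : α ⊕ Option β → ℕ) =>
    bcond (w ∘ Sum.inl) (w (Sum.inr none))
      ((((w (Sum.inr none) + 2) ^ e + w (Sum.inr none) + 3).factorial ^ 2 - 1).choose
        (f (w ∘ Sum.inl))) (fun b => w (Sum.inr (some b))) j) fun j => by
      rcases j with (_ | i) | b
      · exact true_dioph
      · exact le_dioph (proj_dioph _) du
      · exact dvd_dioph dM (mul_dioph (factorial_dioph du) (choose_dioph (proj_dioph _) du))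
  have d3 := diophFn_comp1 (dvd_dioph (reindex_diophFn some dM) (abs_poly_dioph (p.map
    (Sum.elim (Option.map Sum.inl) fun b => some (Sum.inr (some b)))))) dq
  refine (ex_dioph ((le_dioph dy du).inter (d2.inter d3))).ext fun v => ?_
  simp only [Set.mem_ofPred_eq, hp, h]
  have e1 : ∀ (q : ℕ) (x : Option β → ℕ), (Option.elim' q (Sum.elim v x) ∘
      Sum.elim (Option.map Sum.inl) fun b => some (Sum.inr (some b))) =
      Sum.elim (Option.elim' q v) (x ∘ some) := fun q x => by
    funext j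
    rcases j with (_ | i) | b <;> rfl
  constructor
  · rintro ⟨x, a1, a2, a3⟩
    refine ⟨x none, x ∘ some, a1, a2, ?_⟩
    rw [← e1]
    exact a3
  · rintro ⟨u, A, a1, a2, a3⟩
    refine ⟨Option.elim' u A, a1, a2, ?_⟩
    rw [show A = Option.elim' u A ∘ some from rfl, ← e1] at a3
    exact a3

end Pool.Agent.WUnd
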