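import Pool.Agent.P.MP_a11166_lc.Und.DA

/-! The graph of a recursive function is Diophantine; an undecidable Diophantine set. -/

set_option autoImplicit false

namespace Pool.Agent.WUnd

open Dioph

theorem dbEx {α : Type} {P : ℕ → (α → ℕ) → Prop}
    (h : Dioph {w : Option α → ℕ | P (w none) (w ∘ some)}) : Dioph {v | ∃ x, P x v} :=
  Dioph.ext (ex1_dioph h) fun _ => Iff.rfl

theorem dbBall {α : Type} {P : ℕ → (α → ℕ) → Prop} {f : (α → ℕ) → ℕ} (df : DiophFn f)
    (h : Dioph {w : Option α → ℕ | P (w none) (w ∘ some)}) :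
    Dioph {v | ∀ z, z < f v → P z v} :=
  Dioph.ext (ball_dioph h df) fun _ => Iff.rfl

theorem dbUp {α : Type} {f : (α → ℕ) → ℕ} (df : DiophFn f) :
    DiophFn fun w : Option α → ℕ => f (w ∘ some) :=
  reindex_diophFn some df

theorem dbVar {α : Type} : DiophFn fun w : Option α → ℕ => w none := proj_dioph none

theorem dbConst {α : Type} (n : ℕ) : DiophFn fun _ : α → ℕ => n := const_dioph n

theorem dbAnd {α : Type} {P Q : (α → ℕ) → Prop} (h : Dioph {v | P v}) (k : Dioph {v | Q v}) :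
    Dioph {v | P v ∧ Q v} := inter h k

theorem dbOr {α : Type} {P Q : (α → ℕ) → Prop} (h : Dioph {v | P v}) (k : Dioph {v | Q v}) :
    Dioph {v | P v ∨ Q v} := union h k

theorem dbPair {α : Type} {f g : (α → ℕ) → ℕ} (df : DiophFn f) (dg : DiophFn g) :
    DiophFn fun v => Nat.pair (f v) (g v) := by
  have h := dbOr
    (dbAnd (lt_dioph (dbUp df) (dbUp dg))
      (eq_dioph (add_dioph (mul_dioph (dbUp dg) (dbUp dg)) (dbUp df)) dbVar))
    (dbAnd (le_dioph (dbUp dg) (dbUp df))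
      (eq_dioph (add_dioph (add_dioph (mul_dioph (dbUp df) (dbUp df)) (dbUp df)) (dbUp dg))
        dbVar))
  refine Dioph.ext h fun v => ?_
  simp only [Set.mem_ofPred_eq, Nat.pair]
  split_ifs with c
  · constructor
    · rintro (⟨_, e⟩ | ⟨e, _⟩)
      · exact e
      · omega
    · intro e
      exact Or.inl ⟨c, e⟩
  · constructor
    · rintro (⟨e, _⟩ | ⟨_, e⟩)
      · exact absurd e c
      · exact e
    · intro e
      exact Or.inr ⟨not_lt.1 c, e⟩

theorem dbFst {α : Type} {f : (α → ℕ) → ℕ} (df : DiophFn f) :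
    DiophFn fun v => (Nat.unpair (f v)).1 := by
  have h : Dioph {v : Option α → ℕ | ∃ b, f (v ∘ some) = Nat.pair (v none) b} :=
    dbEx (P := fun b (v : Option α → ℕ) => f (v ∘ some) = Nat.pair (v none) b)
      (eq_dioph (dbUp (dbUp df)) (dbPair (dbUp dbVar) dbVar))
  refine Dioph.ext h fun v => ?_
  simp only [Set.mem_ofPred_eq]
  constructor
  · rintro ⟨b, e⟩
    rw [e, Nat.unpair_pair]
  · intro e
    exact ⟨(Nat.unpair (f (v ∘ some))).2, by rw [← e, Nat.pair_unpair]⟩

theorem dbSnd {α : Type} {f : (α → ℕ) → ℕ} (df : DiophFn f) :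
    DiophFn fun v => (Nat.unpair (f v)).2 := by
  have h : Dioph {v : Option α → ℕ | ∃ b, f (v ∘ some) = Nat.pair b (v none)} :=
    dbEx (P := fun b (v : Option α → ℕ) => f (v ∘ some) = Nat.pair b (v none))
      (eq_dioph (dbUp (dbUp df)) (dbPair dbVar (dbUp dbVar)))
  refine Dioph.ext h fun v => ?_
  simp only [Set.mem_ofPred_eq]
  constructor
  · rintro ⟨b, e⟩
    rw [e, Nat.unpair_pair]
  · intro e
    exact ⟨(Nat.unpair (f (v ∘ some))).1, by rw [← e, Nat.pair_unpair]⟩

theorem dbBeta {α : Type} {f g : (α → ℕ) → ℕ} (df : DiophFn f) (dg : DiophFn g) :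
    DiophFn fun v => Nat.beta (f v) (g v) :=
  mod_dioph (dbFst df)
    (add_dioph (mul_dioph (add_dioph dg (dbConst 1)) (dbSnd df)) (dbConst 1))

/-- Membership in a partial primitive recursion is witnessed by the sequence of values. -/
theorem dbRecSeq (A : Part ℕ) (G : ℕ → ℕ → Part ℕ) (n y : ℕ) :
    y ∈ (Nat.rec A (fun k IH => IH.bind fun i => G k i) n : Part ℕ) ↔
      ∃ s : ℕ → ℕ, s 0 ∈ A ∧ (∀ k, k < n → s (k + 1) ∈ G k (s k)) ∧ s n = y := by
  induction n generalizing y with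
  | zero =>
    constructor
    · intro h
      exact ⟨fun _ => y, h, fun k hk => absurd hk (Nat.not_lt_zero k), rfl⟩
    · rintro ⟨s, h0, -, rfl⟩
      exact h0
  | succ n ih =>
    constructor
    · intro h
      obtain ⟨i, hi, hy⟩ := Part.mem_bind_iff.1 h
      obtain ⟨s, h0, hs, hn⟩ := (ih i).1 hi
      refine ⟨fun k => if k ≤ n then s k else y, by simpa using h0, fun k hk => ?_, by simp⟩
      have hkn : k ≤ n := Nat.lt_succ_iff.1 hk
      rcases hkn.lt_or_eq with c | c
      · have c1 : k + 1 ≤ n := c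
        simpa [hkn, c1] using hs k c
      · subst c
        simpa [hn] using hy
    · rintro ⟨s, h0, hs, rfl⟩
      exact Part.mem_bind_iff.2
        ⟨s n, (ih _).2 ⟨s, h0, fun k hk => hs k (Nat.lt_succ_of_lt hk), rfl⟩,
          hs n (Nat.lt_succ_self n)⟩

theorem dbRecBeta (A : Part ℕ) (G : ℕ → ℕ → Part ℕ) (n y : ℕ) :
    y ∈ (Nat.rec A (fun k IH => IH.bind fun i => G k i) n : Part ℕ) ↔
      ∃ c : ℕ, Nat.beta c 0 ∈ A ∧
        (∀ k, k < n → Nat.beta c (k + 1) ∈ G k (Nat.beta c k)) ∧ Nat.beta c n = y := by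
  rw [dbRecSeq]
  constructor
  · rintro ⟨s, h0, hs, hn⟩
    have key : ∀ k, k < n + 1 → Nat.beta (Nat.unbeta ((List.range (n + 1)).map s)) k = s k := by
      intro k hk
      have := Nat.beta_unbeta_coe ((List.range (n + 1)).map s) ⟨k, by simpa using hk⟩
      simpa using this
    refine ⟨Nat.unbeta ((List.range (n + 1)).map s), ?_, fun k hk => ?_, ?_⟩
    · rw [key 0 (Nat.succ_pos n)]
      exact h0
    · rw [key k (Nat.lt_succ_of_lt hk), key (k + 1) (Nat.succ_lt_succ hk)]
      exact hs k hk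
    · rw [key n (Nat.lt_succ_self n)]
      exact hn
  · rintro ⟨c, h0, hs, hn⟩
    exact ⟨Nat.beta c, h0, hs, hn⟩

theorem partrec_dioph {F : ℕ →. ℕ} (hF : Nat.Partrec F) :
    ∀ {α : Type} {f g : (α → ℕ) → ℕ}, DiophFn f → DiophFn g → Dioph {v | g v ∈ F (f v)} := by
  induction hF with
  | zero =>
    intro α f g _ dg
    refine Dioph.ext (eq_dioph dg (dbConst 0)) fun v => ?_
    simp only [Set.mem_ofPred_eq]
    exact Part.mem_some_iff.symm
  | succ =>
    intro α f g df dg
    refine Dioph.ext (eq_dioph dg (add_dioph df (dbConst 1))) fun v => ?_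
    simp only [Set.mem_ofPred_eq]
    exact Part.mem_some_iff.symm
  | left =>
    intro α f g df dg
    refine Dioph.ext (eq_dioph dg (dbFst df)) fun v => ?_
    simp only [Set.mem_ofPred_eq]
    exact Part.mem_some_iff.symm
  | right =>
    intro α f g df dg
    refine Dioph.ext (eq_dioph dg (dbSnd df)) fun v => ?_
    simp only [Set.mem_ofPred_eq]
    exact Part.mem_some_iff.symm
  | @pair F G _ _ ihF ihG =>
    intro α f g df dg
    refine Dioph.ext (dbAnd (ihF df (dbFst dg)) (ihG df (dbSnd dg))) fun v => ?_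
    simp only [Set.mem_ofPred_eq, Seq.seq, Part.map_eq_map, Part.mem_bind_iff,
      Part.mem_map_iff]
    constructor
    · rintro ⟨h1, h2⟩
      exact ⟨_, ⟨_, h1, rfl⟩, _, h2, Nat.pair_unpair _⟩
    · rintro ⟨_, ⟨a, h1, rfl⟩, b, h2, e⟩
      rw [← e, Nat.unpair_pair]
      exact ⟨h1, h2⟩
  | @comp F G _ _ ihF ihG =>
    intro α f g df dg
    have h : Dioph {v | ∃ x, x ∈ G (f v) ∧ g v ∈ F x} :=
      dbEx (P := fun x v => x ∈ G (f v) ∧ g v ∈ F x)
        (dbAnd (ihG (dbUp df) dbVar) (ihF dbVar (dbUp dg)))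
    refine Dioph.ext h fun v => ?_
    simp only [Set.mem_ofPred_eq, Part.bind_eq_bind, Part.mem_bind_iff]
  | @prec F G _ _ ihF ihG =>
    intro α f g df dg
    have h : Dioph {v | ∃ c : ℕ, Nat.beta c 0 ∈ F (Nat.unpair (f v)).1 ∧
        (∀ k, k < (Nat.unpair (f v)).2 → Nat.beta c (k + 1) ∈
          G (Nat.pair (Nat.unpair (f v)).1 (Nat.pair k (Nat.beta c k)))) ∧
        Nat.beta c (Nat.unpair (f v)).2 = g v} := by
      refine dbEx (P := fun c v => Nat.beta c 0 ∈ F (Nat.unpair (f v)).1 ∧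
        (∀ k, k < (Nat.unpair (f v)).2 → Nat.beta c (k + 1) ∈
          G (Nat.pair (Nat.unpair (f v)).1 (Nat.pair k (Nat.beta c k)))) ∧
        Nat.beta c (Nat.unpair (f v)).2 = g v) ?_
      refine dbAnd (ihF (dbFst (dbUp df)) (dbBeta dbVar (dbConst 0))) (dbAnd ?_
        (eq_dioph (dbBeta dbVar (dbSnd (dbUp df))) (dbUp dg)))
      refine dbBall (P := fun k (w : Option α → ℕ) => Nat.beta (w none) (k + 1) ∈
          G (Nat.pair (Nat.unpair (f (w ∘ some))).1 (Nat.pair k (Nat.beta (w none) k))))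
        (dbSnd (dbUp df)) ?_
      exact ihG (dbPair (dbFst (dbUp (dbUp df))) (dbPair dbVar (dbBeta (dbUp dbVar) dbVar)))
        (dbBeta (dbUp dbVar) (add_dioph dbVar (dbConst 1)))
    refine Dioph.ext h fun v => ?_
    simp only [Set.mem_ofPred_eq]
    exact (dbRecBeta (F (Nat.unpair (f v)).1)
      (fun k i => G (Nat.pair (Nat.unpair (f v)).1 (Nat.pair k i))) _ _).symm
  | @rfind F _ ihF =>
    intro α f g df dg
    have h : Dioph {v | 0 ∈ F (Nat.pair (f v) (g v)) ∧
        ∀ k, k < g v → ∃ j, j + 1 ∈ F (Nat.pair (f v) k)} := by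
      refine dbAnd (ihF (dbPair df dg) (dbConst 0)) ?_
      refine dbBall (P := fun k v => ∃ j, j + 1 ∈ F (Nat.pair (f v) k)) dg ?_
      refine dbEx (P := fun j (w : Option α → ℕ) =>
        j + 1 ∈ F (Nat.pair (f (w ∘ some)) (w none))) ?_
      exact ihF (dbPair (dbUp (dbUp df)) (dbUp dbVar)) (add_dioph dbVar (dbConst 1))
    refine Dioph.ext h fun v => ?_
    simp only [Set.mem_ofPred_eq, Nat.mem_rfind, Part.map_eq_map, Part.mem_map_iff,
      decide_eq_true_eq, decide_eq_false_iff_not]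
    constructor
    · rintro ⟨h0, hk⟩
      refine ⟨⟨0, h0, rfl⟩, fun {m} hm => ?_⟩
      obtain ⟨j, hj⟩ := hk m hm
      exact ⟨j + 1, hj, Nat.succ_ne_zero j⟩
    · rintro ⟨⟨a, h0, rfl⟩, hk⟩
      refine ⟨h0, fun m hm => ?_⟩
      obtain ⟨j, hj, hne⟩ := hk hm
      obtain ⟨i, rfl⟩ := Nat.exists_eq_succ_of_ne_zero hne
      exact ⟨i, hj⟩

/-- There is a Diophantine set of natural numbers that is not decidable. -/
theorem exists_undecidable_dioph :
    ∃ K : ℕ → Prop, Dioph {v : Unit → ℕ | K (v ())} ∧ ¬ ComputablePred K := by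
  have hp : Partrec fun n : ℕ =>
      Nat.Partrec.Code.eval (Denumerable.ofNat Nat.Partrec.Code n) 0 :=
    Nat.Partrec.Code.eval_part.comp (Computable.ofNat _) (Computable.const 0)
  have hn : Nat.Partrec fun n : ℕ =>
      Nat.Partrec.Code.eval (Denumerable.ofNat Nat.Partrec.Code n) 0 := Partrec.nat_iff.1 hp
  refine ⟨fun n => (Nat.Partrec.Code.eval (Denumerable.ofNat Nat.Partrec.Code n) 0).Dom, ?_, ?_⟩
  · have h : Dioph {v : Unit → ℕ | ∃ x,
        x ∈ Nat.Partrec.Code.eval (Denumerable.ofNat Nat.Partrec.Code (v ())) 0} :=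
      dbEx (P := fun x (v : Unit → ℕ) =>
          x ∈ Nat.Partrec.Code.eval (Denumerable.ofNat Nat.Partrec.Code (v ())) 0)
        (partrec_dioph hn (dbUp (proj_dioph ())) dbVar)
    exact Dioph.ext h fun v => Part.dom_iff_mem.symm
  · intro hK
    apply ComputablePred.halting_problem 0
    obtain ⟨dec, hc⟩ := hK
    have h2 := hc.comp (Computable.encode (α := Nat.Partrec.Code))
    refine ⟨fun c => Classical.propDecidable _, h2.of_eq fun c => ?_⟩
    simp

end Pool.Agent.WUnd
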