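import Pool.Agent.P.MP_a11166_lc.Und.Growth

/-! Relations between natural numbers that are definable by word equations with length
constraints; every Diophantine relation is definable. -/

set_option autoImplicit false

namespace Pool.Agent.WUnd

/-- Conjunctions of word equations and linear length equations with variables in `V`. -/
inductive G (S V : Type) : Type
  | weq (U W : List (S ⊕ V)) : G S V
  | len (cs : List (ℤ × V)) (c : ℤ) : G S V
  | and (φ ψ : G S V) : G S V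

variable {S V V' α β : Type}

def gval (h : V → List S) (U : List (S ⊕ V)) : List S := U.flatMap (Sum.elim (fun c => [c]) h)

def G.Holds (h : V → List S) : G S V → Prop
  | .weq U W => gval h U = gval h W
  | .len cs c => (cs.map fun p => p.1 * ((h p.2).length : ℤ)).sum = c
  | .and φ ψ => φ.Holds h ∧ ψ.Holds h

def G.map (r : V → V') : G S V → G S V'
  | .weq U W => .weq (U.map (Sum.map id r)) (W.map (Sum.map id r))
  | .len cs c => .len (cs.map (Prod.map id r)) c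
  | .and φ ψ => .and (φ.map r) (ψ.map r)

theorem gval_map (r : V → V') (h : V' → List S) (U : List (S ⊕ V)) :
    gval h (U.map (Sum.map id r)) = gval (h ∘ r) U := by
  simp only [gval, List.flatMap_map]
  congr 1
  funext x
  cases x <;> rfl

theorem G.holds_map (r : V → V') (h : V' → List S) (φ : G S V) :
    (φ.map r).Holds h ↔ φ.Holds (h ∘ r) := by
  induction φ with
  | weq U W => simp only [G.map, G.Holds, gval_map]
  | len cs c => simp only [G.map, G.Holds, List.map_map]; rfl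
  | and φ ψ ih1 ih2 => simp only [G.map, G.Holds, ih1, ih2]

/-- The relation is the set of length vectors of solutions of a system. -/
def WD (S : Type) {α : Type} (R : (α → ℕ) → Prop) : Prop :=
  ∃ (β : Type) (φ : G S (α ⊕ β)), ∀ g : α → List S,
    (R (fun i => (g i).length) ↔ ∃ k : β → List S, φ.Holds (Sum.elim g k))

theorem WD.congr {R R' : (α → ℕ) → Prop} (h : WD S R) (e : ∀ v, R' v ↔ R v) : WD S R' := by
  rwa [show R' = R from funext fun v => propext (e v)]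

theorem WD.and {R R' : (α → ℕ) → Prop} (h : WD S R) (h' : WD S R') :
    WD S fun v => R v ∧ R' v := by
  obtain ⟨β, φ, h⟩ := h
  obtain ⟨β', φ', h'⟩ := h'
  refine ⟨β ⊕ β', .and (φ.map (Sum.map id Sum.inl)) (φ'.map (Sum.map id Sum.inr)), fun g => ?_⟩
  have e1 : ∀ k : β ⊕ β' → List S,
      Sum.elim g k ∘ Sum.map id Sum.inl = Sum.elim g (k ∘ Sum.inl) := fun k => by
    funext x; cases x <;> rfl
  have e2 : ∀ k : β ⊕ β' → List S,
      Sum.elim g k ∘ Sum.map id Sum.inr = Sum.elim g (k ∘ Sum.inr) := fun k => by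
    funext x; cases x <;> rfl
  simp only [G.Holds, G.holds_map, e1, e2, h, h']
  exact ⟨fun ⟨⟨k, hk⟩, k', hk'⟩ => ⟨Sum.elim k k', hk, hk'⟩,
    fun ⟨k, hk, hk'⟩ => ⟨⟨_, hk⟩, _, hk'⟩⟩

theorem WD.reindex {R : (α → ℕ) → Prop} (h : WD S R) (f : α → β) :
    WD S fun v : β → ℕ => R (v ∘ f) := by
  obtain ⟨γ, φ, h⟩ := h
  refine ⟨γ, φ.map (Sum.map f id), fun g => ?_⟩
  have e1 : ∀ k : γ → List S, Sum.elim g k ∘ Sum.map f id = Sum.elim (g ∘ f) k := fun k => by
    funext x; cases x <;> rfl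
  simp only [G.holds_map, e1]
  exact h (g ∘ f)

theorem WD.ex (a : S) {R : (α ⊕ β → ℕ) → Prop} (h : WD S R) :
    WD S fun v : α → ℕ => ∃ t : β → ℕ, R (Sum.elim v t) := by
  obtain ⟨γ, φ, h⟩ := h
  refine ⟨β ⊕ γ, φ.map (Sum.elim (Sum.map id Sum.inl) (Sum.inr ∘ Sum.inr)), fun g => ?_⟩
  have e1 : ∀ k : β ⊕ γ → List S,
      Sum.elim g k ∘ Sum.elim (Sum.map id Sum.inl) (Sum.inr ∘ Sum.inr) =
        Sum.elim (Sum.elim g (k ∘ Sum.inl)) (k ∘ Sum.inr) := fun k => by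
    funext x; rcases x with (x | x) | x <;> rfl
  simp only [G.holds_map, e1]
  constructor
  · rintro ⟨t, ht⟩
    obtain ⟨k, hk⟩ := (h (Sum.elim g fun i => List.replicate (t i) a)).1 (by
      convert ht using 2 with x
      cases x <;> simp)
    exact ⟨Sum.elim (fun i => List.replicate (t i) a) k, hk⟩
  · rintro ⟨k, hk⟩
    refine ⟨fun i => (k (Sum.inl i)).length, ?_⟩
    convert (h _).2 ⟨_, hk⟩ using 2 with x
    cases x <;> rfl

theorem WD.lin (cs : List (ℤ × α)) (c : ℤ) :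
    WD S fun v : α → ℕ => (cs.map fun p => p.1 * (v p.2 : ℤ)).sum = c := by
  refine ⟨Empty, .len (cs.map (Prod.map id Sum.inl)) c, fun g => ?_⟩
  simp only [G.Holds, List.map_map]
  exact ⟨fun h => ⟨Empty.elim, h⟩, fun ⟨_, h⟩ => h⟩

theorem WD.forall_mem {ι : Type} (l : List ι) {R : ι → (α → ℕ) → Prop} (h : ∀ i, WD S (R i)) :
    WD S fun v => ∀ i ∈ l, R i v := by
  induction l with
  | nil => exact (WD.lin [] 0).congr (by simp)
  | cons i l ih => exact ((h i).and ih).congr (by simp)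

/-- Definable functions. -/
def WF (S : Type) {α : Type} (f : (α → ℕ) → ℕ) : Prop :=
  WD S fun v : α ⊕ Unit → ℕ => v (Sum.inr ()) = f (v ∘ Sum.inl)

theorem WD.comp (a : S) {n : ℕ} {R : (Fin n → ℕ) → Prop} (h : WD S R)
    (f : Fin n → (α → ℕ) → ℕ) (hf : ∀ i, WF S (f i)) : WD S fun v => R fun i => f i v := by
  have h1 : WD S fun w : α ⊕ Fin n → ℕ =>
      R (w ∘ Sum.inr) ∧ ∀ i ∈ List.finRange n, w (Sum.inr i) = f i (w ∘ Sum.inl) :=
    (h.reindex Sum.inr).and (WD.forall_mem _ fun i =>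
      WD.reindex (hf i) (Sum.map id fun _ => i))
  refine (h1.ex a).congr fun v => ⟨fun hv => ⟨_, hv, fun i _ => rfl⟩, ?_⟩
  rintro ⟨t, h2, h3⟩
  convert h2 using 2 with i
  exact (h3 i (List.mem_finRange i)).symm

theorem WF.proj (i : α) : WF S fun v : α → ℕ => v i :=
  (WD.lin [(1, Sum.inr ()), (-1, Sum.inl i)] 0).congr fun v => by simp; omega

theorem WF.const (n : ℕ) : WF S fun _ : α → ℕ => n :=
  (WD.lin [(1, Sum.inr ())] n).congr fun v => by simp

theorem WF.lift {f : (α → ℕ) → ℕ} (h : WF S f) (r : α → β) : WF S fun v : β → ℕ => f (v ∘ r) :=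
  WD.reindex h (Sum.map r id)

theorem WD.comp2 (a : S) {R : ℕ → ℕ → Prop} (h : WD S fun v : Fin 2 → ℕ => R (v 0) (v 1))
    {f g : (α → ℕ) → ℕ} (hf : WF S f) (hg : WF S g) : WD S fun v => R (f v) (g v) :=
  h.comp a ![f, g] (by intro i; fin_cases i <;> assumption)

theorem WD.comp3 (a : S) {R : ℕ → ℕ → ℕ → Prop}
    (h : WD S fun v : Fin 3 → ℕ => R (v 0) (v 1) (v 2))
    {f g k : (α → ℕ) → ℕ} (hf : WF S f) (hg : WF S g) (hk : WF S k) :
    WD S fun v => R (f v) (g v) (k v) :=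
  h.comp a ![f, g, k] (by intro i; fin_cases i <;> assumption)

theorem WD.eq (a : S) {f g : (α → ℕ) → ℕ} (hf : WF S f) (hg : WF S g) :
    WD S fun v => f v = g v :=
  WD.comp2 a (R := fun x y => x = y)
    ((WD.lin [(1, 0), (-1, 1)] 0).congr fun v => by simp; omega) hf hg

theorem WF.lin2 (a : S) (m n : ℕ) {f g : (α → ℕ) → ℕ} (hf : WF S f) (hg : WF S g) :
    WF S fun v => m * f v + n * g v :=
  WD.comp3 a (R := fun x y z => x = m * y + n * z)
    ((WD.lin [(1, 0), (-m, 1), (-n, 2)] 0).congr fun v => by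
      simp only [List.map_cons, List.map_nil, List.sum_cons, List.sum_nil]
      rw [← Nat.cast_inj (R := ℤ)]
      push_cast
      constructor <;> intro h <;> linarith)
    (WF.proj _) (hf.lift Sum.inl) (hg.lift Sum.inl)

theorem WF.congr {f g : (α → ℕ) → ℕ} (h : WF S f) (e : ∀ v, g v = f v) : WF S g := by
  rwa [show g = f from funext e]

theorem WF.add (a : S) {f g : (α → ℕ) → ℕ} (hf : WF S f) (hg : WF S g) :
    WF S fun v => f v + g v := (WF.lin2 a 1 1 hf hg).congr (by simp)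

theorem WF.cmul (a : S) (m : ℕ) {f : (α → ℕ) → ℕ} (hf : WF S f) :
    WF S fun v => m * f v := (WF.lin2 a m 0 hf hf).congr (by simp)

theorem WD.ex1 (a : S) {R : (α → ℕ) → ℕ → Prop}
    (h : WD S fun w : α ⊕ Unit → ℕ => R (w ∘ Sum.inl) (w (Sum.inr ()))) :
    WD S fun v => ∃ n, R v n :=
  (h.ex a).congr fun _ => ⟨fun ⟨n, hn⟩ => ⟨fun _ => n, hn⟩, fun ⟨_, ht⟩ => ⟨_, ht⟩⟩

theorem WD.le (a : S) {f g : (α → ℕ) → ℕ} (hf : WF S f) (hg : WF S g) :
    WD S fun v => f v ≤ g v :=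
  (WD.ex1 a (R := fun v n => g v = f v + n)
    (WD.eq a (hg.lift _) (WF.add a (hf.lift _) (WF.proj _)))).congr fun _ => le_iff_exists_add

variable {a b : S}

theorem wd_alive :
    WD S fun v : Fin 4 → ℕ => Alive a b (v 0) (v 1) (v 2) (v 3) := by
  refine ⟨Fin 7, .and (.weq [.inl a, .inr (.inr 0), .inr (.inr 2), .inl b, .inr (.inr 1),
      .inr (.inr 2), .inr (.inr 3), .inr (.inr 3), .inr (.inr 4), .inr (.inr 4)]
      [.inr (.inr 5), .inr (.inr 5)])
    (.and (.len [(1, .inr 0), (-1, .inr 1)] 0)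
    (.and (.len [(1, .inl 3), (-1, .inr 0), (-1, .inr 6)] 1)
    (.and (.len [(1, .inl 0), (-1, .inr 0), (-1, .inr 2)] 1)
    (.and (.len [(1, .inl 1), (-1, .inr 3)] 0) (.len [(1, .inl 2), (-1, .inr 4)] 0))))),
    fun g => ?_⟩
  simp only [G.Holds, gval, List.flatMap_cons, List.flatMap_nil, Sum.elim_inl, Sum.elim_inr,
    List.map_cons, List.map_nil, List.sum_cons, List.sum_nil, List.append_nil]
  constructor
  · rintro ⟨J, K, R, B, C, h1, h2, h3, h4, h5, P, h6⟩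
    refine ⟨![J, K, R, B, C, P, List.replicate ((g 3).length - J.length - 1) a], ?_, ?_⟩
    · simpa using h6
    · simp
      omega
  · rintro ⟨k, h1, h2⟩
    exact ⟨k 0, k 1, k 2, k 3, k 4, by omega, by omega, by omega, by omega, by omega, k 5,
      by simpa using h1⟩

theorem wd_dvd (hab : a ≠ b) : WD S fun v : Fin 2 → ℕ => 1 ≤ v 0 ∧ v 0 ∣ v 1 := by
  refine ⟨Fin 2, .and (.weq [.inl b, .inr (.inr 0)] [.inr (.inr 0), .inl b])
    (.and (.weq [.inr (.inr 1), .inl a, .inr (.inr 0)] [.inl a, .inr (.inr 0), .inr (.inr 1)])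
    (.and (.len [(1, .inl 0), (-1, .inr 0)] 1) (.len [(1, .inl 1), (-1, .inr 1)] 0))),
    fun g => ?_⟩
  refine (dv_iff hab).symm.trans ?_
  simp only [G.Holds, gval, List.flatMap_cons, List.flatMap_nil, Sum.elim_inl, Sum.elim_inr,
    List.map_cons, List.map_nil, List.sum_cons, List.sum_nil, List.append_nil]
  constructor
  · rintro ⟨Y, Z, h1, h2, h3, h4⟩
    refine ⟨![Y, Z], by simpa using h3, by simpa using h4, ?_⟩
    simp
    omega
  · rintro ⟨k, h1, h2, h3⟩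
    exact ⟨k 0, k 1, by omega, by omega, by simpa using h1, by simpa using h2⟩

theorem wd_aliveZ (p q r o : V3) : WD S fun v : Fin 4 → ℕ =>
    AliveZ a b ((v 0 : ℤ) • p + (v 1 : ℤ) • q + (v 2 : ℤ) • r + o) (v 3) := by
  have h1 : WD S fun w : Fin 4 ⊕ Fin 3 → ℕ => _ :=
    ((wd_alive (a := a) (b := b)).reindex ![.inr 0, .inr 1, .inr 2, .inl 3]).and
      ((WD.lin [(1, .inr 0), (-p.1, .inl 0), (-q.1, .inl 1), (-r.1, .inl 2)] o.1).and
      ((WD.lin [(1, .inr 1), (-p.2.1, .inl 0), (-q.2.1, .inl 1), (-r.2.1, .inl 2)] o.2.1).and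
      (WD.lin [(1, .inr 2), (-p.2.2, .inl 0), (-q.2.2, .inl 1), (-r.2.2, .inl 2)] o.2.2)))
  refine (h1.ex a).congr fun v => ?_
  simp only [List.map_cons, List.map_nil, List.sum_cons, List.sum_nil, Sum.elim_inl, Sum.elim_inr,
    AliveZ, Prod.ext_iff, Prod.fst_add, Prod.snd_add, Prod.smul_fst, Prod.smul_snd, smul_eq_mul]
  constructor
  · rintro ⟨x, y, z, ⟨e1, e2, e3⟩, h⟩
    refine ⟨![x, y, z], h, ?_, ?_, ?_⟩
    · show 1 * (x : ℤ) + _ = _
      linarith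
    · show 1 * (y : ℤ) + _ = _
      linarith
    · show 1 * (z : ℤ) + _ = _
      linarith
  · rintro ⟨t, h, e1, e2, e3⟩
    exact ⟨t 0, t 1, t 2, ⟨by linarith, by linarith, by linarith⟩, h⟩

theorem lin_add (c u v : V3) : lin c (u + v) = lin c u + lin c v := by
  refine Prod.ext ?_ (Prod.ext ?_ ?_) <;> simp only [lin, Prod.fst_add, Prod.snd_add] <;> ring

theorem lin_smul (c : V3) (r : ℤ) (v : V3) : lin c (r • v) = r • lin c v := by
  refine Prod.ext ?_ (Prod.ext ?_ ?_) <;>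
    simp only [lin, Prod.smul_fst, Prod.smul_snd, smul_eq_mul] <;> ring

theorem wd_all (o : ℤ) : WD S fun v : Fin 4 → ℕ => AllAt a b (v 0, v 1, v 2 + o) (v 3) := by
  refine WD.forall_mem _ fun r => WD.forall_mem _ fun c => ?_
  refine (wd_aliveZ (a := a) (b := b) (lin c (tau^[r] (1, 0, 0))) (lin c (tau^[r] (0, 1, 0)))
    (lin c (tau^[r] (0, 0, 1))) (lin c (tau^[r] (0, 0, o)))).congr fun v => ?_
  simp only [← lin_smul, ← lin_add, ← it_smul, ← it_add]
  simp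

theorem wd_rho : WD S fun v : Fin 2 → ℕ => Rho a b (v 0) (v 1) := by
  have h1 : WD S fun w : Fin 2 ⊕ Fin 4 → ℕ => _ :=
    (WD.eq a (WF.proj (.inr 3)) (WF.cmul a 110000 (WF.add a (WF.proj (.inl 0)) (WF.const 1)))).and
      ((WD.le a (WF.const 1) (WF.proj (.inr 2))).and
      ((WD.le a (WF.proj (.inl 1)) (WF.proj (.inr 0))).and
      (((wd_all (a := a) (b := b) 0).reindex Sum.inr).and
        ((wd_all (a := a) (b := b) 1).reindex Sum.inr))))
  refine (h1.ex a).congr fun v => ?_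
  constructor
  · rintro ⟨x, y, z, T, h1, h2, h3, h4, h5⟩
    exact ⟨![x, y, z, T], h1, h2, h3, by simpa using h4, h5⟩
  · rintro ⟨t, h1, h2, h3, h4, h5⟩
    exact ⟨t 0, t 1, t 2, t 3, h1, h2, h3, by simpa using h4, h5⟩

theorem sq_of_dvd {X Z : ℕ} (hX : 10 ^ 24 ≤ X) (hZ : Z ≤ 10 ^ 24 * (6 * X + 1) ^ 3)
    (h : ∀ j ∈ [1, 2, 3, 4], ∃ n, n + 1 = j ^ 2 * Z ∧ 1 ≤ j * (6 * X) + 1 ∧
      j * (6 * X) + 1 ∣ n) : Z = (6 * X) ^ 2 := by
  obtain ⟨Y, hY⟩ : ∃ Y, Y = 6 * X := ⟨_, rfl⟩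
  have h6 : 6 ∣ Y := ⟨X, hY⟩
  rw [← hY] at h hZ ⊢
  have key : ∀ j ∈ [1, 2, 3, 4], Z ≡ Y ^ 2 [MOD j * Y + 1] := by
    intro j hj
    obtain ⟨n, h1, -, h2⟩ := h j hj
    have c1 : Nat.Coprime (j * Y + 1) (j ^ 2) := by
      apply Nat.Coprime.pow_right
      rw [add_comm, mul_comm, Nat.coprime_add_mul_right_left]
      exact Nat.coprime_one_left j
    apply Nat.ModEq.cancel_left_of_coprime c1
    rw [← h1, Nat.modEq_iff_dvd]
    have h3 : ((j * Y + 1 : ℕ) : ℤ) ∣ n := by exact_mod_cast h2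
    have h4 : ((j ^ 2 * Y ^ 2 : ℕ) : ℤ) - ((n + 1 : ℕ) : ℤ) =
        ((j * Y + 1 : ℕ) : ℤ) * (j * Y - 1) - n := by push_cast; ring
    rw [h4]
    exact dvd_sub (dvd_mul_right _ _) h3
  have cop : ∀ i j, j - i ∣ 6 → Nat.Coprime (i * Y + 1) (j * Y + 1) := fun i j hij =>
    Nat.coprime_mul_succ (hij.trans h6)
  have k12 := (Nat.modEq_and_modEq_iff_modEq_mul (cop 1 2 (by norm_num))).1
    ⟨key 1 (by simp), key 2 (by simp)⟩
  have k34 := (Nat.modEq_and_modEq_iff_modEq_mul (cop 3 4 (by norm_num))).1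
    ⟨key 3 (by simp), key 4 (by simp)⟩
  have k := (Nat.modEq_and_modEq_iff_modEq_mul (Nat.Coprime.mul_left
    ((cop 1 3 (by norm_num)).mul_right (cop 1 4 (by norm_num)))
    ((cop 2 3 (by norm_num)).mul_right (cop 2 4 (by norm_num))))).1 ⟨k12, k34⟩
  have big : (Y + 1) ^ 4 ≤ (1 * Y + 1) * (2 * Y + 1) * ((3 * Y + 1) * (4 * Y + 1)) := by
    rw [show (Y + 1) ^ 4 = (Y + 1) * (Y + 1) * ((Y + 1) * (Y + 1)) by ring]
    gcongr <;> omega
  refine Nat.ModEq.eq_of_lt_of_lt k (lt_of_lt_of_le ?_ big) (lt_of_lt_of_le ?_ big)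
  · calc Z ≤ 10 ^ 24 * (Y + 1) ^ 3 := hZ
      _ < (Y + 1) * (Y + 1) ^ 3 := by gcongr; omega
      _ = _ := by ring
  · calc Y ^ 2 < (Y + 1) ^ 2 := by gcongr; omega
      _ ≤ _ := Nat.pow_le_pow_right (by omega) (by norm_num)

theorem wd_bigsq (hab : a ≠ b) :
    WD S fun v : Fin 2 → ℕ => v 1 = (6 * (v 0 + 10 ^ 24)) ^ 2 := by
  have hY : WF S fun v : Fin 2 → ℕ => 6 * (v 0 + 10 ^ 24) :=
    WF.cmul a 6 (WF.add a (WF.proj 0) (WF.const _))
  have h1 := (WD.comp2 a (wd_rho (a := a) (b := b)) hY (WF.proj 1)).and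
    (WD.forall_mem [1, 2, 3, 4] fun j => WD.ex1 a
      (R := fun v n => n + 1 = j ^ 2 * v 1 ∧ 1 ≤ j * (6 * (v 0 + 10 ^ 24)) + 1 ∧
        j * (6 * (v 0 + 10 ^ 24)) + 1 ∣ n)
      ((WD.eq a (WF.add a (WF.proj _) (WF.const 1)) (WF.cmul a _ (WF.proj (Sum.inl 1)))).and
        (WD.comp2 a (R := fun m n => 1 ≤ m ∧ m ∣ n) (wd_dvd hab)
          (WF.add a (WF.cmul a j (hY.lift _)) (WF.const 1)) (WF.proj _))))
  refine h1.congr fun v => ⟨fun h => ⟨by rw [h]; exact rho_sq _, fun j hj => ?_⟩,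
    fun h => sq_of_dvd (Nat.le_add_left _ _) (rho_upper hab h.1) h.2⟩
  obtain ⟨m, hm⟩ : ∃ m, j * (6 * (v 0 + 10 ^ 24)) = m + 1 := by
    refine Nat.exists_eq_add_one_of_ne_zero (Nat.mul_ne_zero ?_ (by omega))
    rintro rfl
    simp at hj
  refine ⟨(m + 1 + 1) * m, ?_, by omega, by rw [hm]; exact dvd_mul_right _ _⟩
  rw [h, ← mul_pow, hm]
  ring

theorem WF.sq (hab : a ≠ b) {f : (α → ℕ) → ℕ} (hf : WF S f) : WF S fun v => f v ^ 2 := by
  refine (WD.comp2 a (R := fun x y => y = (6 * (x + 10 ^ 24)) ^ 2) (wd_bigsq hab) (hf.lift Sum.inl)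
    (WF.add a (WF.lin2 a 36 (72 * 10 ^ 24) (WF.proj (.inr ())) (hf.lift Sum.inl))
      (WF.const (36 * 10 ^ 48)))).congr fun v => ?_
  constructor <;> intro h <;> nlinarith

theorem WF.mul (hab : a ≠ b) {f g : (α → ℕ) → ℕ} (hf : WF S f) (hg : WF S g) :
    WF S fun v => f v * g v := by
  refine (WD.eq a (((hf.add a hg).sq hab).lift Sum.inl)
    (WF.add a (((hf.sq hab).add a (hg.sq hab)).lift Sum.inl)
      (WF.cmul a 2 (WF.proj (.inr ()))))).congr fun v => ?_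
  constructor <;> intro h <;> nlinarith

theorem poly_split (hab : a ≠ b) {p : (α → ℕ) → ℤ} (hp : IsPoly p) :
    ∃ P Q : (α → ℕ) → ℕ, WF S P ∧ WF S Q ∧ ∀ v, p v = P v - Q v := by
  induction hp with
  | proj i => exact ⟨_, _, WF.proj i, WF.const 0, by simp⟩
  | const n => exact ⟨_, _, WF.const n.toNat, WF.const (-n).toNat, by simp⟩
  | sub _ _ ih1 ih2 =>
    obtain ⟨P, Q, h1, h2, h3⟩ := ih1
    obtain ⟨P', Q', h1', h2', h3'⟩ := ih2
    exact ⟨_, _, h1.add a h2', h2.add a h1', fun v => by simp only [h3, h3']; push_cast; ring⟩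
  | mul _ _ ih1 ih2 =>
    obtain ⟨P, Q, h1, h2, h3⟩ := ih1
    obtain ⟨P', Q', h1', h2', h3'⟩ := ih2
    exact ⟨_, _, (h1.mul hab h1').add a (h2.mul hab h2'), (h1.mul hab h2').add a (h2.mul hab h1'),
      fun v => by simp only [h3, h3']; push_cast; ring⟩

theorem wd_of_dioph (hab : a ≠ b) {D : Set (α → ℕ)} (h : Dioph D) : WD S fun v => v ∈ D := by
  obtain ⟨β, p, hp⟩ := h
  obtain ⟨P, Q, h1, h2, h3⟩ := poly_split hab p.isPoly
  refine ((WD.eq a h1 h2).ex a).congr fun v => (hp v).trans (exists_congr fun t => ?_)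
  rw [h3]
  omega

end Pool.Agent.WUnd
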