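import Pool.Agent.P.MP_a11166_lc.Und.Words

/-! A relation of polynomial growth that is definable by the word gadgets. -/

set_option autoImplicit false

namespace Pool.Agent.WUnd

abbrev V3 := ℤ × ℤ × ℤ

/-- The tribonacci matrix. -/
def tau (v : V3) : V3 := (v.1 + v.2.1 + v.2.2, v.1, v.2.1)

/-- The matrix `c₁ + c₂ τ + c₃ τ²`. -/
def lin (c v : V3) : V3 :=
  (c.1 * v.1 + c.2.1 * (v.1 + v.2.1 + v.2.2) + c.2.2 * (2 * v.1 + 2 * v.2.1 + v.2.2),
    c.1 * v.2.1 + c.2.1 * v.1 + c.2.2 * (v.1 + v.2.1 + v.2.2),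
    c.1 * v.2.2 + c.2.1 * v.2.1 + c.2.2 * v.1)

def Dead (u : V3) : Prop := u.1 ≤ u.2.2 ∧ u.2.1 ≤ u.2.2 ∧ u.2.2 < u.1 + u.2.1

def Ls : List V3 :=
  [(8, 7, -2), (2, 4, -1), (8, 5, 0), (3, 0, 1), (8, 2, 3), (3, 0, 2), (8, 8, -4), (3, 4, -2),
    (6, 3, -1), (8, 4, -2), (3, -1, 1), (3, 2, -1), (1, -1, 1), (5, 7, -4), (3, 8, -4), (8, 7,
    -4), (5, 1, -1), (5, -2, 1), (8, -8, 6), (0, -5, 4), (8, 0, -1), (3, 1, -1), (3, -2, 1), (3,
    5, -3), (3, 3, -2), (8, 1, -2), (5, 2, -2), (6, -3, 1), (8, 6, -5), (6, 7, -5), (6, -4, 1),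
    (5, -2, 0), (1, -2, 1), (2, 1, -1), (7, 3, -3), (5, 0, -1), (8, -4, 1)]

theorem cover (x y z : ℤ) (hx : 0 ≤ x) (hy : 0 ≤ y) (hz : 0 ≤ z) (h : x < y + z) :
    ∃ c ∈ Ls, Dead (lin c (x, y, z)) ∧ x + y + z ≤ 60 * (lin c (x, y, z)).1 := by
  rcases le_total 0 ((-13) * x + (4) * y + (3) * z) with h1 | h1
  · rcases le_total 0 ((1079) * x + (119) * y + (-301) * z) with h2 | h2
    · rcases le_total 0 ((-7) * x + (1) * y + (10) * z) with h3 | h3
      · exact ⟨(8, 7, -2), by decide, by simp only [lin, Dead]; omega⟩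
      · exact ⟨(2, 4, -1), by decide, by simp only [lin, Dead]; omega⟩
    · rcases le_total 0 ((1079) * x + (479) * y + (-181) * z) with h4 | h4
      · rcases le_total 0 ((-13) * x + (0) * y + (3) * z) with h5 | h5
        · exact ⟨(8, 5, 0), by decide, by simp only [lin, Dead]; omega⟩
        · exact ⟨(3, 0, 1), by decide, by simp only [lin, Dead]; omega⟩
      · rcases le_total 0 ((1079) * x + (1019) * y + (-1) * z) with h6 | h6
        · exact ⟨(8, 2, 3), by decide, by simp only [lin, Dead]; omega⟩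
        · exact ⟨(3, 0, 2), by decide, by simp only [lin, Dead]; omega⟩
  · rcases le_total 0 ((-12) * x + (8) * y + (4) * z) with h7 | h7
    · rcases le_total 0 ((959) * x + (-241) * y + (-481) * z) with h8 | h8
      · rcases le_total 0 ((-8) * x + (4) * y + (12) * z) with h9 | h9
        · exact ⟨(8, 8, -4), by decide, by simp only [lin, Dead]; omega⟩
        · exact ⟨(3, 4, -2), by decide, by simp only [lin, Dead]; omega⟩
      · rcases le_total 0 ((599) * x + (179) * y + (-301) * z) with h10 | h10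
        · rcases le_total 0 ((-3) * x + (-2) * y + (7) * z) with h11 | h11
          · rcases le_total 0 ((-8) * x + (2) * y + (4) * z) with h12 | h12
            · exact ⟨(6, 3, -1), by decide, by simp only [lin, Dead]; omega⟩
            · rcases le_total 0 ((719) * x + (119) * y + (-481) * z) with h13 | h13
              · exact ⟨(8, 4, -2), by decide, by simp only [lin, Dead]; omega⟩
              · exact ⟨(3, -1, 1), by decide, by simp only [lin, Dead]; omega⟩
          · exact ⟨(3, 2, -1), by decide, by simp only [lin, Dead]; omega⟩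
        · rcases le_total 0 ((-4) * x + (-2) * y + (2) * z) with h14 | h14
          · exact ⟨(3, 0, 1), by decide, by simp only [lin, Dead]; omega⟩
          · exact ⟨(3, -1, 1), by decide, by simp only [lin, Dead]; omega⟩
    · rcases le_total 0 ((-3) * x + (-2) * y + (3) * z) with h15 | h15
      · rcases le_total 0 ((179) * x + (359) * y + (-121) * z) with h16 | h16
        · exact ⟨(3, -1, 1), by decide, by simp only [lin, Dead]; omega⟩
        · exact ⟨(1, -1, 1), by decide, by simp only [lin, Dead]; omega⟩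
      · rcases le_total 0 ((-8) * x + (8) * y + (2) * z) with h17 | h17
        · rcases le_total 0 ((659) * x + (-421) * y + (-361) * z) with h18 | h18
          · rcases le_total 0 ((-7) * x + (6) * y + (9) * z) with h19 | h19
            · exact ⟨(5, 7, -4), by decide, by simp only [lin, Dead]; omega⟩
            · exact ⟨(3, 8, -4), by decide, by simp only [lin, Dead]; omega⟩
          · rcases le_total 0 ((839) * x + (-241) * y + (-541) * z) with h20 | h20
            · rcases le_total 0 ((-11) * x + (8) * y + (5) * z) with h21 | h21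
              · rcases le_total 0 ((-7) * x + (3) * y + (12) * z) with h22 | h22
                · exact ⟨(8, 7, -4), by decide, by simp only [lin, Dead]; omega⟩
                · exact ⟨(3, 4, -2), by decide, by simp only [lin, Dead]; omega⟩
              · exact ⟨(5, 1, -1), by decide, by simp only [lin, Dead]; omega⟩
            · exact ⟨(8, 4, -2), by decide, by simp only [lin, Dead]; omega⟩
        · rcases le_total 0 ((-4) * x + (-2) * y + (6) * z) with h23 | h23
          · rcases le_total 0 ((179) * x + (479) * y + (-301) * z) with h24 | h24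
            · rcases le_total 0 ((2) * x + (-8) * y + (4) * z) with h25 | h25
              · exact ⟨(5, -2, 1), by decide, by simp only [lin, Dead]; omega⟩
              · exact ⟨(5, 1, -1), by decide, by simp only [lin, Dead]; omega⟩
            · rcases le_total 0 ((239) * x + (1559) * y + (-241) * z) with h26 | h26
              · exact ⟨(8, -8, 6), by decide, by simp only [lin, Dead]; omega⟩
              · exact ⟨(0, -5, 4), by decide, by simp only [lin, Dead]; omega⟩
          · rcases le_total 0 ((-7) * x + (2) * y + (9) * z) with h27 | h27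
            · rcases le_total 0 ((359) * x + (299) * y + (-601) * z) with h28 | h28
              · rcases le_total 0 ((0) * x + (-7) * y + (9) * z) with h29 | h29
                · exact ⟨(8, 0, -1), by decide, by simp only [lin, Dead]; omega⟩
                · exact ⟨(3, 1, -1), by decide, by simp only [lin, Dead]; omega⟩
              · exact ⟨(3, -2, 1), by decide, by simp only [lin, Dead]; omega⟩
            · rcases le_total 0 ((-5) * x + (6) * y + (1) * z) with h30 | h30
              · rcases le_total 0 ((419) * x + (-361) * y + (-241) * z) with h31 | h31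
                · exact ⟨(3, 5, -3), by decide, by simp only [lin, Dead]; omega⟩
                · exact ⟨(3, 3, -2), by decide, by simp only [lin, Dead]; omega⟩
              · rcases le_total 0 ((-7) * x + (4) * y + (9) * z) with h32 | h32
                · rcases le_total 0 ((359) * x + (119) * y + (-661) * z) with h33 | h33
                  · rcases le_total 0 ((-1) * x + (-5) * y + (10) * z) with h34 | h34
                    · exact ⟨(8, 1, -2), by decide, by simp only [lin, Dead]; omega⟩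
                    · exact ⟨(5, 2, -2), by decide, by simp only [lin, Dead]; omega⟩
                  · rcases le_total 0 ((119) * x + (539) * y + (-421) * z) with h35 | h35
                    · exact ⟨(6, -3, 1), by decide, by simp only [lin, Dead]; omega⟩
                    · exact ⟨(3, -2, 1), by decide, by simp only [lin, Dead]; omega⟩
                · rcases le_total 0 ((599) * x + (-421) * y + (-721) * z) with h36 | h36
                  · rcases le_total 0 ((-9) * x + (10) * y + (7) * z) with h37 | h37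
                    · rcases le_total 0 ((-6) * x + (3) * y + (13) * z) with h38 | h38
                      · exact ⟨(8, 6, -5), by decide, by simp only [lin, Dead]; omega⟩
                      · exact ⟨(6, 7, -5), by decide, by simp only [lin, Dead]; omega⟩
                    · rcases le_total 0 ((-3) * x + (-2) * y + (9) * z) with h39 | h39
                      · rcases le_total 0 ((-1) * x + (539) * y + (-481) * z) with h40 | h40
                        · rcases le_total 0 ((4) * x + (-11) * y + (5) * z) with h41 | h41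
                          · exact ⟨(6, -4, 1), by decide, by simp only [lin, Dead]; omega⟩
                          · exact ⟨(5, -2, 0), by decide, by simp only [lin, Dead]; omega⟩
                        · exact ⟨(1, -2, 1), by decide, by simp only [lin, Dead]; omega⟩
                      · exact ⟨(2, 1, -1), by decide, by simp only [lin, Dead]; omega⟩
                  · rcases le_total 0 ((-7) * x + (6) * y + (7) * z) with h42 | h42
                    · exact ⟨(7, 3, -3), by decide, by simp only [lin, Dead]; omega⟩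
                    · rcases le_total 0 ((-1) * x + (539) * y + (-481) * z) with h43 | h43
                      · exact ⟨(5, 0, -1), by decide, by simp only [lin, Dead]; omega⟩
                      · exact ⟨(8, -4, 1), by decide, by simp only [lin, Dead]; omega⟩

theorem deep (x y z : ℤ) (hz : 1 ≤ z) (h1 : 18 * y ≤ 10 * x) (h2 : 10 * x ≤ 19 * y)
    (h3 : 18 * z ≤ 10 * y) (h4 : 10 * y ≤ 19 * z) :
    ∀ c ∈ Ls, 1 ≤ (lin c (x, y, z)).2.1 ∧ 0 ≤ (lin c (x, y, z)).2.2 ∧
      (lin c (x, y, z)).2.1 + (lin c (x, y, z)).2.2 < (lin c (x, y, z)).1 ∧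
      (lin c (x, y, z)).1 ≤ 22 * x := by
  simp only [Ls, List.forall_mem_cons, lin, List.not_mem_nil, IsEmpty.forall_iff, implies_true,
    and_true]
  omega

theorem lin_tau (c v : V3) : lin c (tau v) = tau (lin c v) := by
  refine Prod.ext ?_ (Prod.ext ?_ ?_) <;> simp only [lin, tau] <;> ring

theorem lin_it (c : V3) (k : ℕ) (v : V3) : lin c (tau^[k] v) = tau^[k] (lin c v) := by
  induction k generalizing v with
  | zero => rfl
  | succ k ih => rw [Function.iterate_succ_apply, Function.iterate_succ_apply, ih, lin_tau]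

theorem tau_add (u v : V3) : tau (u + v) = tau u + tau v := by
  simp only [tau, Prod.fst_add, Prod.snd_add, Prod.mk_add_mk, Prod.mk.injEq, and_true]
  ring

theorem tau_smul (r : ℤ) (v : V3) : tau (r • v) = r • tau v := by
  simp only [tau, Prod.smul_fst, Prod.smul_snd, Prod.smul_mk, smul_eq_mul, Prod.mk.injEq, and_true]
  ring

theorem it_add (k : ℕ) (u v : V3) : tau^[k] (u + v) = tau^[k] u + tau^[k] v := by
  induction k generalizing u v with
  | zero => rfl
  | succ k ih => simp only [Function.iterate_succ_apply, tau_add, ih]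

theorem it_smul (k : ℕ) (r : ℤ) (v : V3) : tau^[k] (r • v) = r • tau^[k] v := by
  induction k generalizing v with
  | zero => rfl
  | succ k ih => simp only [Function.iterate_succ_apply, tau_smul, ih]

theorem tau_mono : Monotone tau := by
  rintro ⟨x, y, z⟩ ⟨x', y', z'⟩ h
  simp only [tau, Prod.mk_le_mk] at h ⊢
  omega

theorem it_mono (k : ℕ) : Monotone tau^[k] := tau_mono.iterate k

theorem tau_inj : Function.Injective tau := by
  rintro ⟨x, y, z⟩ ⟨x', y', z'⟩ h
  simp only [tau, Prod.mk.injEq] at h ⊢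
  omega

theorem it_zero (k : ℕ) : tau^[k] 0 = 0 :=
  Function.iterate_fixed (by simp [tau]) k

theorem it_nonneg (k : ℕ) {v : V3} (h : 0 ≤ v) : 0 ≤ tau^[k] v := by
  have := it_mono k h
  rwa [it_zero] at this

theorem tau3 (x y z : ℤ) :
    tau^[3] (x, y, z) = (4 * x + 3 * y + 2 * z, 2 * x + 2 * y + z, x + y + z) := by
  refine Prod.ext ?_ (Prod.ext ?_ ?_) <;>
    simp only [Function.iterate_succ_apply, Function.iterate_zero_apply, tau] <;> omega

theorem nonneg_iff (x y z : ℤ) : (0 : V3) ≤ (x, y, z) ↔ 0 ≤ x ∧ 0 ≤ y ∧ 0 ≤ z := Iff.rfl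

variable {S : Type} {a b : S}

/-- The gadget at an integer vector. -/
def AliveZ (a b : S) (v : V3) (T : ℕ) : Prop :=
  ∃ x y z : ℕ, v = ((x : ℤ), (y : ℤ), (z : ℤ)) ∧ Alive a b x y z T

theorem z_down {T : ℕ} (n : ℕ) {u : V3} (h0 : 0 ≤ u) (hT : (T : ℤ) ≤ u.1)
    (h : AliveZ a b (tau^[3 * n] u) T) : AliveZ a b u T := by
  induction n generalizing u with
  | zero => exact h
  | succ n ih =>
    obtain ⟨x, y, z⟩ := u
    rw [Nat.mul_succ, Function.iterate_add_apply, tau3] at h
    rw [nonneg_iff] at h0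
    obtain ⟨x', y', z', e, h'⟩ := ih (by rw [nonneg_iff]; omega) (by simp only at hT ⊢; omega) h
    lift x to ℕ using h0.1
    lift y to ℕ using h0.2.1
    lift z to ℕ using h0.2.2
    simp only [Prod.mk.injEq] at e hT
    refine ⟨x, y, z, rfl, theta_down (by omega) ?_⟩
    convert h' using 1 <;> omega

theorem z_up {T : ℕ} (n : ℕ) {u : V3} (h : AliveZ a b u T) : AliveZ a b (tau^[3 * n] u) T := by
  induction n generalizing u with
  | zero => exact h
  | succ n ih =>
    obtain ⟨x, y, z, rfl, h⟩ := h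
    rw [Nat.mul_succ, Function.iterate_add_apply, tau3]
    exact ih ⟨_, _, _, by push_cast; rfl, theta_up h⟩

theorem exit_aux (N : ℕ) : ∀ x y z : ℤ, 0 ≤ x → 0 ≤ y → 0 ≤ z → 1 ≤ x + y + z → x + y + z ≤ N →
    ∃ (m : ℕ) (x' y' z' : ℤ), (x, y, z) = tau^[m] (x', y', z') ∧ 0 ≤ x' ∧ 0 ≤ y' ∧ 0 ≤ z' ∧
      x' < y' + z' := by
  induction N with
  | zero => intro x y z hx hy hz h1 h2; omega
  | succ N ih =>
    intro x y z hx hy hz h1 h2
    by_cases h : x < y + z
    · exact ⟨0, x, y, z, rfl, hx, hy, hz, h⟩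
    by_cases h' : y + z = 0
    · refine ⟨1, 0, 0, x, ?_, le_rfl, le_rfl, hx, by omega⟩
      simp only [Function.iterate_one, tau, Prod.mk.injEq]
      omega
    obtain ⟨m, x', y', z', e, r⟩ := ih y z (x - y - z) hy hz (by omega) (by omega) (by omega)
    refine ⟨m + 1, x', y', z', ?_, r⟩
    rw [Function.iterate_succ_apply', ← e]
    simp only [tau, Prod.mk.injEq, and_true]
    ring

/-- All gadgets at the vector `v`. -/
def AllAt (a b : S) (v : V3) (T : ℕ) : Prop :=
  ∀ r ∈ [0, 1, 2], ∀ c ∈ Ls, AliveZ a b (lin c (tau^[r] v)) T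

theorem small_of_all (hab : a ≠ b) {x y z : ℤ} {T : ℕ} (hx : 0 ≤ x) (hy : 0 ≤ y) (hz : 1 ≤ z)
    (h : AllAt a b (x, y, z) T) :
    ∃ (m : ℕ) (x' y' z' : ℤ), (x, y, z) = tau^[m] (x', y', z') ∧ 0 ≤ x' ∧ 0 ≤ y' ∧ 0 ≤ z' ∧
      x' + y' + z' ≤ 60 * T := by
  obtain ⟨m, x', y', z', e, h1, h2, h3, h4⟩ :=
    exit_aux (x + y + z).toNat x y z hx hy (by omega) (by omega) (by omega)
  refine ⟨m, x', y', z', e, h1, h2, h3, ?_⟩
  obtain ⟨c, hc, hd, hs⟩ := cover x' y' z' h1 h2 h3 h4
  obtain ⟨r, hr, n, hn⟩ : ∃ r ∈ [0, 1, 2], ∃ n, r + m = 3 * n :=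
    ⟨(3 - m % 3) % 3, by simp only [List.mem_cons]; omega, (m + 2) / 3, by omega⟩
  have h5 := h r hr c hc
  rw [e, ← Function.iterate_add_apply, hn, lin_it] at h5
  by_contra hlt
  generalize lin c (x', y', z') = u at hd hs h5
  obtain ⟨p, q, s⟩ := u
  simp only [Dead] at hd hs
  obtain ⟨p', q', s', e', h6⟩ := z_down n (by rw [nonneg_iff]; omega) (by simp only; omega) h5
  simp only [Prod.mk.injEq] at e'
  exact dead hab (by omega) (by omega) (by omega) h6

/-- The norm form. -/
def nm (v : V3) : ℤ :=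
  v.1 ^ 3 - 2 * v.1 ^ 2 * v.2.1 - v.1 ^ 2 * v.2.2 - 2 * v.1 * v.2.1 * v.2.2 + v.1 * v.2.2 ^ 2
    + 2 * v.2.1 ^ 3 + 2 * v.2.1 ^ 2 * v.2.2 + 2 * v.2.1 * v.2.2 ^ 2 + v.2.2 ^ 3

theorem nm_tau (v : V3) : nm (tau v) = nm v := by
  simp only [nm, tau]
  ring

theorem nm_it (k : ℕ) (v : V3) : nm (tau^[k] v) = nm v := by
  induction k generalizing v with
  | zero => rfl
  | succ k ih => rw [Function.iterate_succ_apply, ih, nm_tau]

theorem abs_mul_le_of {p q P Q : ℤ} (h1 : |p| ≤ P) (h2 : |q| ≤ Q) : |p * q| ≤ P * Q := by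
  rw [abs_mul]
  exact mul_le_mul h1 h2 (abs_nonneg _) ((abs_nonneg _).trans h1)

theorem cramer {k : ℕ} {x y z p q s d e f D : ℤ} (h1 : tau^[k] (p, q, s) = (x, y, z))
    (h2 : tau^[k] (d, e, f) = (0, 0, 1)) (hp : |p| ≤ D) (hq : |q| ≤ D) (hs : |s| ≤ D)
    (hd : |d| ≤ D) (he : |e| ≤ D) (hf : |f| ≤ D) : x ≤ 12 * D ^ 3 := by
  have n1 : nm (d, e, f) = 1 := by rw [← nm_it k, h2]; rfl
  have c1 : tau^[k] (tau (d, e, f)) = (1, 0, 0) := by
    rw [← Function.iterate_succ_apply, Function.iterate_succ_apply', h2]; rfl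
  have c2 : tau^[k] (tau (tau (d, e, f))) = (1, 1, 0) := by
    rw [← Function.iterate_succ_apply, Function.iterate_succ_apply', c1]; rfl
  have c3 : tau^[k] (p, q, s) =
      tau^[k] ((x - y) • tau (d, e, f) + (y • tau (tau (d, e, f)) + z • (d, e, f))) := by
    rw [it_add, it_add, it_smul, it_smul, it_smul, c1, c2, h1, h2]
    simp
  have c4 := tau_inj.iterate k c3
  simp only [tau, Prod.smul_mk, smul_eq_mul, Prod.mk_add_mk, Prod.mk.injEq] at c4
  obtain ⟨e1, e2, e3⟩ := c4
  have key : x = p * ((e + f) * f - e * (d - e)) - q * ((d + e) * f - d * (d - e))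
      + s * ((d + e) * e - d * (e + f)) := by
    have : x = x * nm (d, e, f) := by rw [n1, mul_one]
    rw [this, e1, e2, e3]
    simp only [nm]
    ring
  have a1 : |e + f| ≤ 2 * D := (abs_add_le _ _).trans (by linarith)
  have a2 : |d + e| ≤ 2 * D := (abs_add_le _ _).trans (by linarith)
  have a3 : |d - e| ≤ 2 * D := (abs_sub _ _).trans (by linarith)
  have b1 := abs_mul_le_of hp
    ((abs_sub _ _).trans (add_le_add (abs_mul_le_of a1 hf) (abs_mul_le_of he a3)))
  have b2 := abs_mul_le_of hq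
    ((abs_sub _ _).trans (add_le_add (abs_mul_le_of a2 hf) (abs_mul_le_of hd a3)))
  have b3 := abs_mul_le_of hs
    ((abs_sub _ _).trans (add_le_add (abs_mul_le_of a2 he) (abs_mul_le_of hd a1)))
  have b4 := (abs_le.1 b1).2
  have b5 := (abs_le.1 b2).1
  have b6 := (abs_le.1 b3).2
  rw [key]
  nlinarith

theorem fst_pos (k : ℕ) : 1 ≤ (tau^[k] (4, 2, 1)).1 ∧ 0 ≤ tau^[k] (4, 2, 1) := by
  induction k with
  | zero => exact ⟨by decide, by decide⟩
  | succ k ih =>
    rw [Function.iterate_succ_apply']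
    generalize tau^[k] (4, 2, 1) = u at ih
    obtain ⟨x, y, z⟩ := u
    simp only [tau, nonneg_iff] at ih ⊢
    omega

theorem compare {k : ℕ} {p q s p' q' s' : ℤ} (h : 0 ≤ p ∧ 0 ≤ q ∧ 0 ≤ s)
    (h' : 0 ≤ p' ∧ 0 ≤ q' ∧ 0 ≤ s') (hle : tau^[k] (p', q', s') ≤ (2 : ℤ) • tau^[k] (p, q, s)) :
    p' + q' + s' ≤ 4 * (p + q + s) := by
  have h1 := it_mono 3 hle
  rw [it_smul, ← Function.iterate_add_apply, ← Function.iterate_add_apply, Nat.add_comm,
    Function.iterate_add_apply, Function.iterate_add_apply, tau3, tau3] at h1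
  have h2 : (p' + q' + s') • ((4, 2, 1) : V3) ≤
      (2 : ℤ) • (4 * p' + 3 * q' + 2 * s', 2 * p' + 2 * q' + s', p' + q' + s') := by
    simp only [Prod.smul_mk, smul_eq_mul, Prod.mk_le_mk]
    omega
  have h3 : ((4 * p + 3 * q + 2 * s, 2 * p + 2 * q + s, p + q + s) : V3) ≤
      (p + q + s) • ((4, 2, 1) : V3) := by
    simp only [Prod.smul_mk, smul_eq_mul, Prod.mk_le_mk]
    omega
  have h4 := (it_mono k h2).1
  have h5 := (it_mono k h3).1
  have h6 := h1.1
  simp only [it_smul, Prod.smul_fst, smul_eq_mul] at h4 h5 h6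
  have h7 := (fst_pos k).1
  by_contra hc
  nlinarith

theorem growth_upper (hab : a ≠ b) {x y z : ℤ} {T : ℕ} (hx : 0 ≤ x) (hy : 0 ≤ y) (hz : 1 ≤ z)
    (h : AllAt a b (x, y, z) T) (h' : AllAt a b (x, y, z + 1) T) : x ≤ 12 * (240 * T) ^ 3 := by
  obtain ⟨m, p, q, s, e, h1, h2, h3, h4⟩ := small_of_all hab hx hy hz h
  obtain ⟨m', p', q', s', e', h1', h2', h3', h4'⟩ := small_of_all hab hx hy (by omega) h'
  have main : ∀ (k : ℕ) (p q s p' q' s' : ℤ), (x, y, z) = tau^[k] (p, q, s) →
      (x, y, z + 1) = tau^[k] (p', q', s') → 0 ≤ p ∧ 0 ≤ q ∧ 0 ≤ s → 0 ≤ p' ∧ 0 ≤ q' ∧ 0 ≤ s' →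
      p + q + s ≤ 60 * T ∨ p' + q' + s' ≤ 60 * T → x ≤ 12 * (240 * T) ^ 3 := by
    intro k p q s p' q' s' e e' h h' hT
    have c1 := compare (k := k) h h' (by
      rw [← e, ← e']; simp only [Prod.smul_mk, smul_eq_mul, Prod.mk_le_mk]; omega)
    have c2 := compare (k := k) h' h (by
      rw [← e, ← e']; simp only [Prod.smul_mk, smul_eq_mul, Prod.mk_le_mk]; omega)
    have c3 : tau^[k] (p' - p, q' - q, s' - s) = (0, 0, 1) := by
      have : ((p' - p, q' - q, s' - s) : V3) = (p', q', s') + (-1 : ℤ) • (p, q, s) := by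
        simp only [Prod.smul_mk, smul_eq_mul, Prod.mk_add_mk, Prod.mk.injEq]
        omega
      rw [this, it_add, it_smul, ← e, ← e']
      simp
    refine cramer e.symm c3 ?_ ?_ ?_ ?_ ?_ ?_ <;> rw [abs_le] <;> omega
  rcases le_total m m' with hm | hm
  · obtain ⟨j, rfl⟩ := Nat.exists_eq_add_of_le hm
    rw [Function.iterate_add_apply] at e'
    have hn := it_nonneg j ((nonneg_iff p' q' s').2 ⟨h1', h2', h3'⟩)
    generalize tau^[j] (p', q', s') = u at e' hn
    exact main m p q s u.1 u.2.1 u.2.2 e e' ⟨h1, h2, h3⟩ hn (Or.inl h4)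
  · obtain ⟨j, rfl⟩ := Nat.exists_eq_add_of_le hm
    rw [Function.iterate_add_apply] at e
    have hn := it_nonneg j ((nonneg_iff p q s).2 ⟨h1, h2, h3⟩)
    generalize tau^[j] (p, q, s) = u at e hn
    exact main m' u.1 u.2.1 u.2.2 p' q' s' e e' hn ⟨h1', h2', h3'⟩ (Or.inr h4')

theorem all_of_near {t d e f : ℤ} {T : ℕ} (n : ℕ) (ht : 1 ≤ t) (hd : |d| ≤ t) (he : |e| ≤ t)
    (hf : |f| ≤ t) (hT : 27000 * t ≤ T) :
    AllAt a b (tau^[3 * n] (355 * t + d, 193 * t + e, 105 * t + f)) T := by
  intro r hr c hc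
  rw [← Function.iterate_add_apply, Nat.add_comm, Function.iterate_add_apply, lin_it]
  apply z_up
  rw [abs_le] at hd he hf
  have key : ∀ x y z : ℤ, 1 ≤ z → 18 * y ≤ 10 * x → 10 * x ≤ 19 * y → 18 * z ≤ 10 * y →
      10 * y ≤ 19 * z → 22 * x ≤ T → AliveZ a b (lin c (x, y, z)) T := by
    intro x y z h0 h1 h2 h3 h4 h5
    have h6 := deep x y z h0 h1 h2 h3 h4 c hc
    generalize lin c (x, y, z) = u at h6
    obtain ⟨p, q, s⟩ := u
    simp only at h6
    lift p to ℕ using by omega
    lift q to ℕ using by omega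
    lift s to ℕ using by omega
    exact ⟨p, q, s, rfl, base (by omega) (by omega) (by omega)⟩
  simp only [List.mem_cons, List.not_mem_nil, or_false] at hr
  rcases hr with rfl | rfl | rfl <;>
    simp only [Function.iterate_succ_apply, Function.iterate_zero_apply, tau] <;>
    apply key <;> omega

theorem back (n : ℕ) : ∃ d e f : ℤ, tau^[3 * n] (d, e, f) = (0, 0, 1) ∧ |d| ≤ 4 ^ n ∧
    |e| ≤ 4 ^ n ∧ |f| ≤ 4 ^ n := by
  induction n with
  | zero => exact ⟨0, 0, 1, rfl, by simp, by simp, by simp⟩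
  | succ n ih =>
    obtain ⟨d, e, f, h, h1, h2, h3⟩ := ih
    refine ⟨d - e - f, 2 * e - d, 2 * f - e, ?_, ?_⟩
    · rw [Nat.mul_succ, Function.iterate_add_apply, tau3, ← h]
      congr 1
      simp only [Prod.mk.injEq]
      omega
    · rw [pow_succ]
      simp only [abs_le] at h1 h2 h3 ⊢
      omega

theorem forth (n : ℕ) (x y z : ℤ) (hx : 0 ≤ x) (hy : 0 ≤ y) (hz : 1 ≤ z) :
    ∃ x' y' z' : ℤ, tau^[3 * n] (x, y, z) = (x', y', z') ∧ 4 ^ n * x ≤ x' ∧ 0 ≤ y' ∧ 1 ≤ z' := by
  induction n with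
  | zero => exact ⟨x, y, z, rfl, by simp, hy, hz⟩
  | succ n ih =>
    obtain ⟨x', y', z', h, h1, h2, h3⟩ := ih
    have h4 : 0 ≤ 4 ^ n * x := by positivity
    refine ⟨_, _, _, by rw [Nat.mul_succ, Nat.add_comm, Function.iterate_add_apply, h, tau3],
      ?_, by omega, by omega⟩
    rw [pow_succ, mul_right_comm]
    omega

/-- The growth relation. -/
def Rho (a b : S) (X Z : ℕ) : Prop :=
  ∃ x y z T : ℕ, T = 110000 * (X + 1) ∧ 1 ≤ z ∧ Z ≤ x ∧ AllAt a b (x, y, z) T ∧
    AllAt a b (x, y, z + 1) T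

theorem rho_upper (hab : a ≠ b) {X Z : ℕ} (h : Rho a b X Z) : Z ≤ 10 ^ 24 * (X + 1) ^ 3 := by
  obtain ⟨x, y, z, T, rfl, h1, h2, h3, h4⟩ := h
  have h5 := growth_upper hab (by omega) (by omega) (by omega) h3 h4
  have h6 : x ≤ 12 * (240 * (110000 * (X + 1))) ^ 3 := by exact_mod_cast h5
  calc Z ≤ 12 * (240 * (110000 * (X + 1))) ^ 3 := h2.trans h6
    _ = 12 * (240 * 110000) ^ 3 * (X + 1) ^ 3 := by ring
    _ ≤ _ := Nat.mul_le_mul_right _ (by norm_num)

theorem rho_sq (X : ℕ) : Rho a b X (X ^ 2) := by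
  obtain ⟨n, h1, h2⟩ : ∃ n, X ≤ 4 ^ n ∧ 4 ^ n ≤ 4 * X + 1 := by
    rcases Nat.eq_zero_or_pos X with rfl | hX
    · exact ⟨0, by simp, by simp⟩
    · refine ⟨Nat.log 4 X + 1, (Nat.lt_pow_succ_log_self (by norm_num) X).le, ?_⟩
      have := Nat.pow_log_le_self 4 hX.ne'
      rw [pow_succ]
      omega
  obtain ⟨d, e, f, h3, h4, h5, h6⟩ := back n
  have h1' : (X : ℤ) ≤ 4 ^ n := by exact_mod_cast h1
  have h2' : (4 : ℤ) ^ n ≤ 4 * X + 1 := by exact_mod_cast h2
  obtain ⟨x, y, z, h7, h8, h9, h10⟩ := forth n (355 * (4 * X + 1)) (193 * (4 * X + 1))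
    (105 * (4 * X + 1)) (by omega) (by omega) (by omega)
  have h11 : (X : ℤ) ^ 2 ≤ x := by nlinarith
  have a1 := all_of_near (a := a) (b := b) (t := 4 * X + 1) (d := 0) (e := 0) (f := 0)
    (T := 110000 * (X + 1)) n (by omega) (by simp; omega) (by simp; omega) (by simp; omega)
    (by push_cast; omega)
  have a2 := all_of_near (a := a) (b := b) (t := 4 * X + 1) (T := 110000 * (X + 1)) n (by omega)
    (h4.trans h2') (h5.trans h2') (h6.trans h2') (by push_cast; omega)
  simp only [add_zero] at a1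
  rw [← Prod.mk_add_mk, ← Prod.mk_add_mk, it_add, h3, h7] at a2
  rw [h7] at a1
  lift x to ℕ using (sq_nonneg _).trans h11
  lift y to ℕ using h9
  lift z to ℕ using by omega
  refine ⟨x, y, z, _, rfl, by omega, by exact_mod_cast h11, a1, ?_⟩
  simpa using a2

end Pool.Agent.WUnd
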