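import Pool.Agent.P.MP_a11166_lc.Und.Defn
import Pool.Agent.P.MP_a11166_lc.Und.DB
import Pool.Agent.P.MP_a11166_lc.Form

/-! Satisfiability of word equations with linear length constraints is undecidable. -/

set_option autoImplicit false

namespace Pool.Agent.WUnd

open Pool.Agent.WEq

variable {S V : Type}

/-- Numbering the variables. -/
def G.toF (r : V → ℕ) : G S V → Fml S
  | .weq U W => .weq (U.map (Sum.map id r)) (W.map (Sum.map id r))
  | .len cs c => .len (cs.map (Prod.map id r)) .eq c
  | .and φ ψ => .and (φ.toF r) (ψ.toF r)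

theorem G.holds_toF (r : V → ℕ) (h : ℕ → List S) (φ : G S V) :
    (φ.toF r).Holds h ↔ φ.Holds (h ∘ r) := by
  induction φ with
  | weq U W => simp only [G.toF, G.Holds, Fml.Holds, ← gval_map]; rfl
  | len cs c => simp only [G.toF, G.Holds, Fml.Holds, List.map_map]; rfl
  | and φ ψ ih1 ih2 => simp only [G.toF, G.Holds, Fml.Holds, ih1, ih2]

/-- The list of variables of a system. -/
def G.vars : G S V → List V
  | .weq U W => (U ++ W).filterMap Sum.getRight?
  | .len cs _ => cs.map Prod.snd
  | .and φ ψ => φ.vars ++ ψ.vars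

theorem gval_congr {h h' : V → List S} {U : List (S ⊕ V)}
    (e : ∀ v, Sum.inr v ∈ U → h v = h' v) : gval h U = gval h' U := by
  refine List.flatMap_congr fun x hx => ?_
  cases x with
  | inl c => rfl
  | inr v => exact e v hx

theorem G.holds_congr {h h' : V → List S} (φ : G S V) (e : ∀ v ∈ φ.vars, h v = h' v) :
    φ.Holds h ↔ φ.Holds h' := by
  induction φ with
  | weq U W =>
    simp only [G.Holds]
    rw [gval_congr (h := h) (h' := h') (U := U) fun v hv => e v
        (List.mem_filterMap.2 ⟨_, List.mem_append_left _ hv, rfl⟩),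
      gval_congr (h := h) (h' := h') (U := W) fun v hv => e v
        (List.mem_filterMap.2 ⟨_, List.mem_append_right _ hv, rfl⟩)]
  | len cs c =>
    simp only [G.Holds]
    rw [List.map_congr_left (g := fun p => p.1 * ((h' p.2).length : ℤ)) fun p hp => by
      rw [e p.2 (List.mem_map_of_mem hp)]]
  | and φ ψ ih1 ih2 =>
    simp only [G.Holds]
    rw [ih1 fun v hv => e v (List.mem_append_left _ hv),
      ih2 fun v hv => e v (List.mem_append_right _ hv)]

theorem exists_numbering (L : List V) :
    ∃ r : V → ℕ, ∀ H : V → List S, ∃ g : ℕ → List S, ∀ v ∈ L, g (r v) = H v := by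
  classical
  refine ⟨fun v => L.idxOf v, fun H => ⟨fun i => ((L[i]?).map H).getD [], fun v hv => ?_⟩⟩
  simp only [List.getElem?_idxOf hv]
  rfl

/-- A definable set of numbers is the set of lengths of one variable of a formula. -/
theorem exists_fml (a : S) {K : ℕ → Prop} (h : WD S fun v : Unit → ℕ => K (v ())) :
    ∃ (φ : Fml S) (i : ℕ), ∀ n, K n ↔ ∃ g : ℕ → List S, φ.Holds g ∧ (g i).length = n := by
  obtain ⟨β, φ, h⟩ := h
  obtain ⟨r, hr⟩ := exists_numbering (S := S) (Sum.inl () :: φ.vars)
  refine ⟨φ.toF r, r (Sum.inl ()), fun n => ⟨fun hn => ?_, ?_⟩⟩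
  · obtain ⟨k, hk⟩ := (h fun _ => List.replicate n a).1 (by simpa using hn)
    obtain ⟨g, hg⟩ := hr (Sum.elim (fun _ => List.replicate n a) k)
    refine ⟨g, (G.holds_toF _ _ _).2 ((G.holds_congr φ fun v hv => ?_).2 hk), ?_⟩
    · exact hg v (List.mem_cons_of_mem _ hv)
    · rw [hg _ List.mem_cons_self]
      simp
  · rintro ⟨g, hg, rfl⟩
    rw [G.holds_toF] at hg
    refine (h fun _ => g (r (Sum.inl ()))).2 ⟨fun x => g (r (Sum.inr x)), ?_⟩
    convert hg using 1
    funext x
    cases x <;> rfl

theorem undecidable (S : Type) [Primcodable S] [Nontrivial S] :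
    ¬ ∃ f : List (Tok S) → Bool, Computable f ∧
      ∀ φ : Fml S, (f φ.code = true ↔ ∃ h : ℕ → List S, φ.Holds h) := by
  rintro ⟨f, hf, H⟩
  obtain ⟨a, b, hab⟩ := exists_pair_ne S
  obtain ⟨K, hK, hK'⟩ := exists_undecidable_dioph
  obtain ⟨φ, i, hφ⟩ := exists_fml a (K := K) (wd_of_dioph hab hK)
  apply hK'
  have c1 : Computable fun n : ℕ => (φ.code ++
      [Sum.inr (Sum.inl ([((1, 0), i)], 0, n, 0))] ++ [Sum.inr (Sum.inr 0)] : List (Tok S)) := by
    refine Primrec.to_comp (Primrec.list_append.comp (Primrec.list_append.comp (.const _)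
      (Primrec.list_cons.comp (Primrec.sumInr.comp (Primrec.sumInl.comp
        ((Primrec.const _).pair ((Primrec.const _).pair (Primrec.id.pair (.const _))))))
        (.const _))) (.const _))
  refine ComputablePred.computable_iff.2 ⟨_, hf.comp c1, ?_⟩
  funext n
  apply propext
  have e := H (.and φ (.len [(1, i)] .eq n))
  rw [show (Fml.and φ (.len [(1, i)] .eq n)).code = φ.code ++
      [Sum.inr (Sum.inl ([((1, 0), i)], 0, n, 0))] ++ [Sum.inr (Sum.inr 0)] by
    simp [Fml.code, icode, Cmp.code]] at e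
  refine (hφ n).trans (Iff.trans ?_ e.symm)
  simp [Fml.Holds, Cmp.Rel]

end Pool.Agent.WUnd
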