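import Mathlib

/-! The word gadgets: an equation that follows the Arnoux-Rauzy algorithm, and divisibility. -/

set_option autoImplicit false

namespace Pool.Agent.WUnd

variable {S : Type}

/-- The word is a square. -/
def Sq (w : List S) : Prop := ∃ p, w = p ++ p

theorem Sq.rot {u v : List S} (h : Sq (u ++ v)) : Sq (v ++ u) := by
  obtain ⟨p, hp⟩ := h
  rcases List.append_eq_append_iff.1 hp with ⟨c, h1, h2⟩ | ⟨c, h1, h2⟩
  · exact ⟨c ++ u, by rw [h2, h1]; simp⟩
  · exact ⟨v ++ c, by rw [h1, h2]; simp⟩

theorem Sq.halves {u v : List S} (h : Sq (u ++ v)) (hl : u.length = v.length) : u = v := by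
  obtain ⟨p, hp⟩ := h
  have h1 : u.length = p.length := by
    have := congrArg List.length hp
    simp only [List.length_append] at this
    omega
  obtain ⟨h2, h3⟩ := List.append_inj hp h1
  rw [h2, h3]

theorem core_down {J K R E : List S} {s : ℕ} (hJK : J.length = K.length) (hE : E.length = 2 * s)
    (hs : s ≤ R.length) (h : Sq (J ++ R ++ (K ++ R) ++ E)) :
    ∃ R', R'.length + s = R.length ∧ Sq (J ++ R' ++ (K ++ R') ++ E) := by
  obtain ⟨R', F, rfl, hF⟩ : ∃ R' F : List S, R = R' ++ F ∧ F.length = s :=
    ⟨R.take (R.length - s), R.drop (R.length - s), (List.take_append_drop _ _).symm, by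
      rw [List.length_drop]; omega⟩
  obtain ⟨G, H, hGH, hG⟩ : ∃ G H : List S, K ++ (R' ++ F) = G ++ H ∧ G.length = s :=
    ⟨(K ++ (R' ++ F)).take s, (K ++ (R' ++ F)).drop s, (List.take_append_drop _ _).symm, by
      rw [List.length_take]; simp only [List.length_append]; omega⟩
  have hH : (J ++ R').length = H.length := by
    have := congrArg List.length hGH
    simp only [List.length_append] at this ⊢
    omega
  have h1 : J ++ R' ++ (F ++ G) = H ++ E := by
    apply Sq.halves
    · rw [hGH] at h
      simpa only [List.append_assoc] using h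
    · simp only [List.length_append] at hH ⊢
      omega
  obtain ⟨h2, h3⟩ := List.append_inj h1 hH
  refine ⟨R', by simp only [List.length_append]; omega, ?_⟩
  have h4 : Sq (K ++ R' ++ E ++ (J ++ R')) := by
    refine ⟨K ++ (R' ++ F), ?_⟩
    conv_rhs => rw [hGH]; enter [1]; rw [← hGH]
    rw [← h3, ← h2]
    simp only [List.append_assoc]
  simpa only [List.append_assoc] using h4.rot

theorem core_up {J K R E : List S} {s : ℕ} (hJK : J.length = K.length) (hE : E.length = 2 * s)
    (h : Sq (J ++ R ++ (K ++ R) ++ E)) :
    ∃ R', R'.length = R.length + s ∧ Sq (J ++ R' ++ (K ++ R') ++ E) := by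
  obtain ⟨F, H, rfl, hF, hH⟩ : ∃ F H : List S, E = F ++ H ∧ F.length = s ∧ H.length = s :=
    ⟨E.take s, E.drop s, (List.take_append_drop _ _).symm, by rw [List.length_take]; omega, by
      rw [List.length_drop]; omega⟩
  have h1 : K ++ R ++ F = H ++ (J ++ R) := by
    apply Sq.halves
    · have h2 : Sq (J ++ R ++ (K ++ R ++ (F ++ H))) := by
        simpa only [List.append_assoc] using h
      simpa only [List.append_assoc] using h2.rot
    · simp only [List.length_append]
      omega
  refine ⟨R ++ F, by simp only [List.length_append]; omega, J ++ R ++ (F ++ H), ?_⟩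
  have h2 : K ++ (R ++ F) = H ++ (J ++ R) := by rw [← h1]; simp only [List.append_assoc]
  rw [h2]
  simp only [List.append_assoc]

/-- The equation `a J R b K R B B C C = P P` has a solution with block lengths `x, y, z` and
defect of length at most `T`. -/
def Alive (a b : S) (x y z T : ℕ) : Prop :=
  ∃ J K R B C : List S, J.length = K.length ∧ J.length < T ∧ J.length + 1 + R.length = x ∧
    B.length = y ∧ C.length = z ∧ Sq (a :: J ++ R ++ (b :: K ++ R) ++ (B ++ B ++ (C ++ C)))

variable {a b : S} {x y z T : ℕ}

theorem Alive.mono {T' : ℕ} (h : Alive a b x y z T) (hT : T ≤ T') : Alive a b x y z T' := by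
  obtain ⟨J, K, R, B, C, h1, h2, h3⟩ := h
  exact ⟨J, K, R, B, C, h1, by omega, h3⟩

theorem downA (hT : T ≤ x) (h : Alive a b (x + y + z) y z T) : Alive a b x y z T := by
  obtain ⟨J, K, R, B, C, h1, h2, h3, h4, h5, h6⟩ := h
  obtain ⟨R', h7, h8⟩ := core_down (s := y + z) (by simp [h1])
    (by simp only [List.length_append]; omega) (by omega) h6
  exact ⟨J, K, R', B, C, h1, h2, by omega, h4, h5, h8⟩

theorem upA (h : Alive a b x y z T) : Alive a b (x + y + z) y z T := by
  obtain ⟨J, K, R, B, C, h1, h2, h3, h4, h5, h6⟩ := h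
  obtain ⟨R', h7, h8⟩ := core_up (s := y + z) (by simp [h1])
    (by simp only [List.length_append]; omega) h6
  exact ⟨J, K, R', B, C, h1, h2, by omega, h4, h5, h8⟩

theorem downB (h : Alive a b x (x + y + z) z T) : Alive a b x y z T := by
  obtain ⟨J, K, R, B, C, h1, h2, h3, h4, h5, h6⟩ := h
  have h7 : Sq ([] ++ B ++ ([] ++ B) ++ (C ++ C ++ (a :: J ++ R ++ (b :: K ++ R)))) := by
    simpa only [List.append_assoc, List.nil_append] using h6.rot
  obtain ⟨B', h8, h9⟩ := core_down (s := x + z) rfl
    (by simp only [List.length_append, List.length_cons]; omega) (by omega) h7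
  refine ⟨J, K, R, B', C, h1, h2, h3, by omega, h5, Sq.rot ?_⟩
  simpa only [List.append_assoc, List.nil_append] using h9

theorem upB (h : Alive a b x y z T) : Alive a b x (x + y + z) z T := by
  obtain ⟨J, K, R, B, C, h1, h2, h3, h4, h5, h6⟩ := h
  have h7 : Sq ([] ++ B ++ ([] ++ B) ++ (C ++ C ++ (a :: J ++ R ++ (b :: K ++ R)))) := by
    simpa only [List.append_assoc, List.nil_append] using h6.rot
  obtain ⟨B', h8, h9⟩ := core_up (s := x + z) rfl
    (by simp only [List.length_append, List.length_cons]; omega) h7
  refine ⟨J, K, R, B', C, h1, h2, h3, by omega, h5, Sq.rot ?_⟩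
  simpa only [List.append_assoc, List.nil_append] using h9

theorem downC (h : Alive a b x y (x + y + z) T) : Alive a b x y z T := by
  obtain ⟨J, K, R, B, C, h1, h2, h3, h4, h5, h6⟩ := h
  have h7 : Sq ([] ++ C ++ ([] ++ C) ++ (a :: J ++ R ++ (b :: K ++ R) ++ (B ++ B))) := by
    have h : Sq (a :: J ++ R ++ (b :: K ++ R) ++ (B ++ B) ++ (C ++ C)) := by
      simpa only [List.append_assoc] using h6
    simpa only [List.append_assoc, List.nil_append] using h.rot
  obtain ⟨C', h8, h9⟩ := core_down (s := x + y) rfl
    (by simp only [List.length_append, List.length_cons]; omega) (by omega) h7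
  refine ⟨J, K, R, B, C', h1, h2, h3, h4, by omega, ?_⟩
  simpa only [List.append_assoc, List.nil_append] using h9.rot

theorem upC (h : Alive a b x y z T) : Alive a b x y (x + y + z) T := by
  obtain ⟨J, K, R, B, C, h1, h2, h3, h4, h5, h6⟩ := h
  have h7 : Sq ([] ++ C ++ ([] ++ C) ++ (a :: J ++ R ++ (b :: K ++ R) ++ (B ++ B))) := by
    have h : Sq (a :: J ++ R ++ (b :: K ++ R) ++ (B ++ B) ++ (C ++ C)) := by
      simpa only [List.append_assoc] using h6
    simpa only [List.append_assoc, List.nil_append] using h.rot
  obtain ⟨C', h8, h9⟩ := core_up (s := x + y) rfl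
    (by simp only [List.length_append, List.length_cons]; omega) h7
  refine ⟨J, K, R, B, C', h1, h2, h3, h4, by omega, ?_⟩
  simpa only [List.append_assoc, List.nil_append] using h9.rot

theorem theta_down (hT : T ≤ x)
    (h : Alive a b (4 * x + 3 * y + 2 * z) (2 * x + 2 * y + z) (x + y + z) T) :
    Alive a b x y z T := by
  apply downC
  apply downB
  apply downA hT
  convert h using 1 <;> omega

theorem theta_up (h : Alive a b x y z T) :
    Alive a b (4 * x + 3 * y + 2 * z) (2 * x + 2 * y + z) (x + y + z) T := by
  have h1 := upA (upB (upC h))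
  convert h1 using 1 <;> omega

theorem Sq.get {w : List S} (h : Sq w) {n i : ℕ} (hn : w.length = 2 * n) (hi : i < n) :
    w[i]? = w[i + n]? := by
  obtain ⟨p, rfl⟩ := h
  have hp : p.length = n := by simp only [List.length_append] at hn; omega
  rw [List.getElem?_append_left (by omega), List.getElem?_append_right (by omega)]
  congr 1
  omega

theorem dead (hab : a ≠ b) (h1 : x ≤ z) (h2 : y ≤ z) (h3 : z < x + y) :
    ¬ Alive a b x y z T := by
  rintro ⟨J, K, R, B, C, e1, -, e3, e4, e5, e6⟩
  obtain ⟨A1, hA1⟩ : ∃ A1, A1 = a :: J ++ R := ⟨_, rfl⟩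
  obtain ⟨A2, hA2⟩ : ∃ A2, A2 = b :: K ++ R := ⟨_, rfl⟩
  have l1 : A1.length = x := by rw [hA1]; simp only [List.length_append, List.length_cons]; omega
  have l2 : A2.length = x := by rw [hA2]; simp only [List.length_append, List.length_cons]; omega
  have g1 : A1[0]? = some a := by rw [hA1]; simp
  have g2 : A2[0]? = some b := by rw [hA2]; simp
  rw [← hA1, ← hA2] at e6
  obtain ⟨W, hW⟩ : ∃ W, W = A1 ++ A2 ++ (B ++ B ++ (C ++ C)) := ⟨_, rfl⟩
  rw [← hW] at e6
  have lW : W.length = 2 * (x + y + z) := by rw [hW]; simp only [List.length_append]; omega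
  have lA : (A1 ++ A2).length = 2 * x := by simp only [List.length_append]; omega
  have lB : (B ++ B).length = 2 * y := by simp only [List.length_append]; omega
  have p0 : W[0]? = some a := by
    rw [hW, List.getElem?_append_left (by omega), List.getElem?_append_left (by omega), g1]
  have p1 : W[x]? = some b := by
    rw [hW, List.getElem?_append_left (by omega), List.getElem?_append_right (by omega), ← g2]
    congr 1
    omega
  have p2 : W[0 + (x + y + z)]? = B[z - x]? := by
    rw [hW, List.getElem?_append_right (by omega), List.getElem?_append_left (by omega),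
      List.getElem?_append_right (by omega)]
    congr 1
    omega
  have p3 : W[x + z]? = B[z - x]? := by
    rw [hW, List.getElem?_append_right (by omega), List.getElem?_append_left (by omega),
      List.getElem?_append_left (by omega)]
    congr 1
    omega
  have p4 : W[x + z + (x + y + z)]? = C[z - y]? := by
    rw [hW, List.getElem?_append_right (by omega), List.getElem?_append_right (by omega),
      List.getElem?_append_right (by omega)]
    congr 1
    omega
  have p5 : W[x + (x + y + z)]? = C[z - y]? := by
    rw [hW, List.getElem?_append_right (by omega), List.getElem?_append_right (by omega),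
      List.getElem?_append_left (by omega)]
    congr 1
    omega
  have q0 := e6.get lW (i := 0) (by omega)
  have q1 := e6.get lW (i := x + z) (by omega)
  have q2 := e6.get lW (i := x) (by omega)
  rw [p0, p2] at q0
  rw [p3, p4] at q1
  rw [p1, p5] at q2
  exact hab (Option.some.inj (q0.trans (q1.trans q2.symm)))

theorem base (h1 : 1 ≤ y + z) (h2 : y + z < x) (hT : x ≤ T) : Alive a b x y z T := by
  obtain ⟨s, hs⟩ : ∃ s, y + z = s + 1 := ⟨y + z - 1, by omega⟩
  obtain ⟨r, hr⟩ : ∃ r, x = s + r + 2 := ⟨x - s - 2, by omega⟩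
  refine ⟨List.replicate (s + r + 1) b, List.replicate s b ++ a :: List.replicate r b, [],
    List.replicate y b, List.replicate z b, by simp; omega, by simp; omega, by simp; omega,
    by simp, by simp, a :: List.replicate (2 * s + r + 2) b, ?_⟩
  have e1 : List.replicate (2 * s + r + 2) b =
      List.replicate (s + r + 1) b ++ b :: List.replicate s b := by
    rw [← List.replicate_succ, List.replicate_append_replicate]
    congr 1
    omega
  have e2 : List.replicate (2 * s + r + 2) b = List.replicate r b ++
      (List.replicate y b ++ List.replicate y b ++ (List.replicate z b ++ List.replicate z b)) := by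
    simp only [List.replicate_append_replicate]
    congr 1
    omega
  conv_rhs => enter [2]; rw [e2]
  conv_rhs => enter [1]; rw [e1]
  simp only [List.append_assoc, List.cons_append, List.append_nil]

/-- The divisibility gadget. -/
def Dv (a b : S) (m n : ℕ) : Prop :=
  ∃ Y Z : List S, Y.length + 1 = m ∧ Z.length = n ∧ b :: Y = Y ++ [b] ∧
    Z ++ a :: Y = a :: Y ++ Z

theorem unary {Y : List S} (h : b :: Y = Y ++ [b]) : ∀ c ∈ Y, c = b := by
  induction Y with
  | nil => simp
  | cons c Y ih =>
    simp only [List.cons_append, List.cons.injEq] at h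
    obtain ⟨rfl, h⟩ := h
    intro d hd
    rcases List.mem_cons.1 hd with rfl | hd
    · rfl
    · exact ih h d hd

theorem dv_aux (hab : a ≠ b) {Y : List S} (hY : ∀ c ∈ Y, c = b) :
    ∀ (n : ℕ) (Z : List S), Z.length = n → Z ++ a :: Y = a :: Y ++ Z → Y.length + 1 ∣ n := by
  intro n
  induction n using Nat.strong_induction_on with
  | _ n ih =>
    intro Z hZ h
    rcases List.append_eq_append_iff.1 h with ⟨c, h1, h2⟩ | ⟨c, h1, h2⟩
    · rcases Z with _ | ⟨d, Z⟩
      · simp at hZ
        simp [← hZ]
      · rcases c with _ | ⟨e, c⟩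
        · have := congrArg List.length h1
          simp only [List.length_cons, List.append_nil] at this hZ
          rw [← hZ, this]
        · exfalso
          simp only [List.cons_append, List.cons.injEq] at h1 h2
          have hd : d ∈ Y := by rw [h2.2]; simp
          exact hab (h1.1.trans (hY d hd))
    · have hl := congrArg List.length h1
      simp only [List.length_append, List.length_cons] at hl
      have h3 : c ++ a :: Y = a :: Y ++ c := h2.symm.trans h1
      have := ih c.length (by omega) c rfl h3
      rw [← hZ, hl]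
      exact Dvd.dvd.add (dvd_refl _) this

theorem dv_iff (hab : a ≠ b) {m n : ℕ} : Dv a b m n ↔ 1 ≤ m ∧ m ∣ n := by
  constructor
  · rintro ⟨Y, Z, h1, h2, h3, h4⟩
    exact ⟨by omega, h1 ▸ dv_aux hab (unary h3) n Z h2 h4⟩
  · rintro ⟨h1, k, rfl⟩
    obtain ⟨r, rfl⟩ : ∃ r, m = r + 1 := ⟨m - 1, by omega⟩
    induction k with
    | zero =>
      exact ⟨List.replicate r b, [], by simp, by simp, by
        rw [← List.replicate_succ, List.replicate_succ'], by simp⟩
    | succ k ih =>
      obtain ⟨Y, Z, e1, e2, e3, e4⟩ := ih
      refine ⟨Y, a :: Y ++ Z, e1, ?_, e3, ?_⟩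
      · simp only [List.length_append, List.length_cons]
        rw [e1, e2]
        ring
      · rw [List.append_assoc, e4]

end Pool.Agent.WUnd
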